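import Pool.Agent.Work.MP_8c8e41_lc.Valid

/-!
Algebra for the drawing gadgets.
-/

set_option autoImplicit false

namespace Pool.Agent.Work.MP_8aa36a_lc

open Pool.Agent.Work.MP_8c8e41_lc

/-- the spokes of a prism -/
lemma spoke {a1 a2 b1 b2 o : V3} (h1 : det3 a1 a2 b1 ≠ 0) (h2 : det3 a1 a2 b2 ≠ 0)
    (h3 : det3 a2 b2 b1 ≠ 0) (l1 : det3 a1 b1 o = 0) (l2 : det3 a2 b2 o = 0) (ho : o ≠ 0) :
    det3 o a1 a2 ≠ 0 ∧ det3 b1 o a2 ≠ 0 := by
  obtain ⟨x, y, z, hp, hx, hy, hz⟩ := exists_coords h1 o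
  have hy0 : y = 0 := by
    have : y * det3 a1 a2 b1 = 0 := by
      rw [hy, det3_swap23, l1, neg_zero]
    exact (mul_eq_zero.mp this).resolve_right h1
  subst hy0
  rw [zero_smul, add_zero] at hp
  constructor
  · intro h
    have hz0 : z = 0 := by
      have : z * det3 a1 a2 b1 = 0 := by
        rw [hz, det3_rot]; exact h
      exact (mul_eq_zero.mp this).resolve_right h1
    subst hz0
    rw [zero_smul, add_zero] at hp
    have hx0 : x ≠ 0 := by
      rintro rfl; apply ho; rw [hp, zero_smul]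
    have : x * det3 a1 a2 b2 = 0 := by
      rw [← l2, hp, det3_smul3]
      simp only [det3]; ring
    exact h2 ((mul_eq_zero.mp this).resolve_left hx0)
  · intro h
    have hx0 : x = 0 := by
      have : x * det3 a1 a2 b1 = 0 := by
        rw [hx]
        have : det3 o a2 b1 = det3 b1 o a2 := by simp only [det3]; ring
        rw [this, h]
      exact (mul_eq_zero.mp this).resolve_right h1
    subst hx0
    rw [zero_smul, zero_add] at hp
    have hz0 : z ≠ 0 := by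
      rintro rfl; apply ho; rw [hp, zero_smul]
    have : z * det3 a2 b2 b1 = 0 := by
      rw [← l2, hp, det3_smul3]
    exact h3 ((mul_eq_zero.mp this).resolve_left hz0)

/-- the prism forces collinearity -/
theorem prism_sound {o a1 a2 a3 b1 b2 b3 p12 p23 p13 : V3}
    (l1 : det3 a1 b1 o = 0) (l2 : det3 a2 b2 o = 0) (l3 : det3 a3 b3 o = 0)
    (l4 : det3 a1 a2 p12 = 0) (l5 : det3 b1 b2 p12 = 0)
    (l6 : det3 a2 a3 p23 = 0) (l7 : det3 b2 b3 p23 = 0)
    (l8 : det3 a1 a3 p13 = 0) (l9 : det3 b1 b3 p13 = 0) (ho : o ≠ 0)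
    (h1 : det3 a1 a2 b1 ≠ 0) (h2 : det3 a1 a2 b2 ≠ 0)
    (h3 : det3 a2 a3 b2 ≠ 0) (h4 : det3 a2 a3 b3 ≠ 0)
    (h5 : det3 a1 a3 b1 ≠ 0) (h6 : det3 a1 a3 b3 ≠ 0)
    (k1 : det3 a2 b2 b1 ≠ 0) (k2 : det3 a1 b1 b2 ≠ 0)
    (k3 : det3 a3 b3 b2 ≠ 0)
    (k5 : det3 a3 b3 b1 ≠ 0) (k6 : det3 a1 b1 b3 ≠ 0) :
    det3 p12 p23 p13 = 0 := by
  have s12 := spoke h1 h2 k1 l1 l2 ho
  have s23 := spoke h3 h4 k3 l2 l3 ho
  have s13 := spoke h5 h6 k5 l1 l3 ho
  have s21 := spoke (a1 := a2) (a2 := a1) (b1 := b2) (b2 := b1)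
    (by rw [det3_swap12]; exact neg_ne_zero.mpr h2) (by rw [det3_swap12]; exact neg_ne_zero.mpr h1)
    k2 l2 l1 ho
  have s31 := spoke (a1 := a3) (a2 := a1) (b1 := b3) (b2 := b1)
    (by rw [det3_swap12]; exact neg_ne_zero.mpr h6) (by rw [det3_swap12]; exact neg_ne_zero.mpr h5)
    k6 l3 l1 ho
  refine desargues_sound (o := o) (a1 := a1) (a2 := a2) (a3 := a3) (b1 := b1) (b2 := b2) (b3 := b3)
    ?_ ?_ ?_ l4 l5 l6 l7 l8 l9 s12.1 s23.1 s13.1 ?_ ?_ ?_ s12.2 s21.2 s31.2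
  · rw [← det3_rot]; rw [← l1]
  · rw [← det3_rot]; rw [← l2]
  · rw [← det3_rot]; rw [← l3]
  · rw [← det3_rot]; exact h1
  · have : det3 b2 a2 a1 = - det3 a1 a2 b2 := by simp only [det3]; ring
    rw [this]; exact neg_ne_zero.mpr h2
  · have : det3 b3 a3 a1 = - det3 a1 a3 b3 := by simp only [det3]; ring
    rw [this]; exact neg_ne_zero.mpr h6

/-- a diagonal point of a quadrangle -/
lemma diag_point {v1 v2 v3 v4 p : V3} {x y z : ℝ} (hD : det3 v1 v2 v3 ≠ 0)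
    (h4 : v4 = x • v1 + y • v2 + z • v3) (hx : x ≠ 0) (hp : p ≠ 0)
    (l1 : det3 v1 v2 p = 0) (l2 : det3 v3 v4 p = 0) :
    ∃ k : ℝ, k ≠ 0 ∧ p = k • (x • v1 + y • v2) := by
  obtain ⟨a, b, c, hp', -, -, hc⟩ := exists_coords hD p
  have hc0 : c = 0 := by
    rw [l1] at hc; exact (mul_eq_zero.mp hc).resolve_right hD
  subst hc0
  rw [zero_smul, add_zero] at hp'
  have e : x * b = y * a := by
    have : det3 v3 v4 p = (x * b - y * a) * det3 v1 v2 v3 := by
      rw [hp', h4]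
      simp only [det3, Prod.smul_fst, Prod.smul_snd, smul_eq_mul, Prod.fst_add, Prod.snd_add]; ring
    rw [this] at l2
    have := (mul_eq_zero.mp l2).resolve_right hD
    linarith
  refine ⟨a / x, ?_, ?_⟩
  · intro h0
    have ha : a = 0 := by
      rcases div_eq_zero_iff.mp h0 with h | h
      · exact h
      · exact absurd h hx
    subst ha
    have hb : b = 0 := by
      have : x * b = 0 := by rw [e, mul_zero]
      exact (mul_eq_zero.mp this).resolve_left hx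
    apply hp; rw [hp', hb, zero_smul, zero_smul, add_zero]
  · rw [hp', smul_add, smul_smul, smul_smul, div_mul_cancel₀ _ hx]
    have : a / x * y = b := by field_simp; linarith
    rw [this]

/-- the complete quadrangle has non-collinear diagonal points -/
theorem quad_sound {v1 v2 v3 v4 p q r : V3} (hp : p ≠ 0) (hq : q ≠ 0) (hr : r ≠ 0)
    (h123 : det3 v1 v2 v3 ≠ 0) (h124 : det3 v1 v2 v4 ≠ 0) (h134 : det3 v1 v3 v4 ≠ 0)
    (h234 : det3 v2 v3 v4 ≠ 0)
    (l1 : det3 v1 v2 p = 0) (l2 : det3 v3 v4 p = 0)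
    (l3 : det3 v1 v3 q = 0) (l4 : det3 v2 v4 q = 0)
    (l5 : det3 v1 v4 r = 0) (l6 : det3 v2 v3 r = 0) :
    det3 p q r ≠ 0 := by
  obtain ⟨x, y, z, h4, hx, hy, hz⟩ := exists_coords h123 v4
  have hx0 : x ≠ 0 := by
    rintro rfl; apply h234
    have : det3 v2 v3 v4 = det3 v4 v2 v3 := by simp only [det3]; ring
    rw [this, ← hx, zero_mul]
  have hy0 : y ≠ 0 := by
    rintro rfl; apply h134
    have : det3 v1 v3 v4 = - det3 v1 v4 v3 := by simp only [det3]; ring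
    rw [this, ← hy, zero_mul, neg_zero]
  have hz0 : z ≠ 0 := by
    rintro rfl; apply h124
    rw [← hz, zero_mul]
  obtain ⟨k, hk, hp'⟩ := diag_point h123 h4 hx0 hp l1 l2
  have h132 : det3 v1 v3 v2 ≠ 0 := by rw [det3_swap23]; exact neg_ne_zero.mpr h123
  obtain ⟨l, hl, hq'⟩ := diag_point (v1 := v1) (v2 := v3) (v3 := v2) (v4 := v4) (p := q)
    (x := x) (y := z) (z := y) h132
    (by rw [h4]; abel) hx0 hq l3 l4
  have h231 : det3 v2 v3 v1 ≠ 0 := by
    have : det3 v2 v3 v1 = det3 v1 v2 v3 := by simp only [det3]; ring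
    rw [this]; exact h123
  obtain ⟨m, hm, hr'⟩ := diag_point (v1 := v2) (v2 := v3) (v3 := v1) (v4 := v4) (p := r)
    (x := y) (y := z) (z := x) h231
    (by rw [h4]; abel) hy0 hr l6 l5
  have : det3 p q r = - 2 * (k * l * m) * (x * y * z) * det3 v1 v2 v3 := by
    rw [hp', hq', hr']
    simp only [det3, Prod.smul_fst, Prod.smul_snd, smul_eq_mul, Prod.fst_add, Prod.snd_add]; ring
  rw [this]
  refine mul_ne_zero (mul_ne_zero (mul_ne_zero (by norm_num) ?_) ?_) h123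
  · exact mul_ne_zero (mul_ne_zero hk hl) hm
  · exact mul_ne_zero (mul_ne_zero hx0 hy0) hz0

end Pool.Agent.Work.MP_8aa36a_lc
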