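import Pool.Agent.Work.MP_8aa36a_lc.Family

/-!
Completeness of the drawing reduction.
-/

set_option autoImplicit false

namespace Pool.Agent.Work.MP_8aa36a_lc

open Pool.Agent.Work.MP_8c8e41_lc

/-- passage to the affine plane -/
noncomputable def aff (s : ℝ) (v : V3) : ℝ × ℝ :=
  (v.1 / (v.1 + s * v.2.1 + s ^ 2 * v.2.2), v.2.1 / (v.1 + s * v.2.1 + s ^ 2 * v.2.2))

lemma aff_det {s : ℝ} (hs : s ≠ 0) {a b c : V3} (ha : a.1 + s * a.2.1 + s ^ 2 * a.2.2 ≠ 0)
    (hb : b.1 + s * b.2.1 + s ^ 2 * b.2.2 ≠ 0) (hc : c.1 + s * c.2.1 + s ^ 2 * c.2.2 ≠ 0) :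
    det3 (lift (aff s a)) (lift (aff s b)) (lift (aff s c)) = 0 ↔ det3 a b c = 0 := by
  have e : (a.1 + s * a.2.1 + s ^ 2 * a.2.2) * (b.1 + s * b.2.1 + s ^ 2 * b.2.2) *
      (c.1 + s * c.2.1 + s ^ 2 * c.2.2) *
      det3 (lift (aff s a)) (lift (aff s b)) (lift (aff s c)) = s ^ 2 * det3 a b c := by
    generalize hA : a.1 + s * a.2.1 + s ^ 2 * a.2.2 = A at *
    generalize hB : b.1 + s * b.2.1 + s ^ 2 * b.2.2 = B at *
    generalize hC : c.1 + s * c.2.1 + s ^ 2 * c.2.2 = C at *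
    have : A * B * C * det3 (lift (aff s a)) (lift (aff s b)) (lift (aff s c)) =
        det3 (a.1, a.2.1, A) (b.1, b.2.1, B) (c.1, c.2.1, C) := by
      simp only [det3, lift, aff, hA, hB, hC]
      field_simp
    rw [this, ← hA, ← hB, ← hC]
    simp only [det3]
    ring
  constructor
  · intro h
    rw [h, mul_zero] at e
    exact (mul_eq_zero.mp e.symm).resolve_left (pow_ne_zero 2 hs)
  · intro h
    rw [h, mul_zero] at e
    exact (mul_eq_zero.mp e).resolve_left (mul_ne_zero (mul_ne_zero ha hb) hc)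

/-- homogeneous drawings give drawings -/
theorem draw_transfer {E : List CEdge} {M : ℕ} {q Q : ℕ → V3} (hE : ∀ e ∈ E, e.1 < M ∧ e.2.1 < M)
    (hq : ∀ n < M, q n ≠ 0) (hQ : ∀ e ∈ E, Q e.2.2 ≠ 0)
    (hv : ∀ u < M, ∀ v < M, u ≠ v → ∃ w < M, det3 (q u) (q v) (q w) ≠ 0)
    (hloop : ∀ e ∈ E, e.1 ≠ e.2.1)
    (hc : ∀ e ∈ E, det3 (q e.1) (q e.2.1) (Q e.2.2) = 0)
    (hl : ∀ e ∈ E, ∀ f ∈ E, e ≠ f →
      (det3 (q e.1) (q e.2.1) (q f.1) ≠ 0 ∨ det3 (q e.1) (q e.2.1) (q f.2.1) ≠ 0 ∨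
       det3 (q f.1) (q f.2.1) (q e.1) ≠ 0 ∨ det3 (q f.1) (q f.2.1) (q e.2.1) ≠ 0)) :
    ∃ p, FDraw E p := by
  classical
  obtain ⟨s, hs0, hs⟩ := exists_functional
    ((Finset.range M).image q ∪ (E.toFinset.image fun e => Q e.2.2)) (by
      intro v hv
      rcases Finset.mem_union.mp hv with hv | hv
      · obtain ⟨n, hn, rfl⟩ := Finset.mem_image.mp hv
        exact hq n (Finset.mem_range.mp hn)
      · obtain ⟨e, he, rfl⟩ := Finset.mem_image.mp hv
        exact hQ e (List.mem_toFinset.mp he))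
  have fq : ∀ n < M, (q n).1 + s * (q n).2.1 + s ^ 2 * (q n).2.2 ≠ 0 := fun n hn =>
    hs _ (Finset.mem_union_left _ (Finset.mem_image_of_mem _ (Finset.mem_range.mpr hn)))
  have fQ : ∀ e ∈ E, (Q e.2.2).1 + s * (Q e.2.2).2.1 + s ^ 2 * (Q e.2.2).2.2 ≠ 0 := fun e he =>
    hs _ (Finset.mem_union_right _ (Finset.mem_image.mpr ⟨e, List.mem_toFinset.mpr he, rfl⟩))
  have inj : ∀ u < M, ∀ v < M, aff s (q u) = aff s (q v) → u = v := by
    intro u hu v hv' huv
    by_contra hne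
    obtain ⟨w, hw, hdet⟩ := hv u hu v hv' hne
    apply hdet
    rw [← aff_det hs0 (fq u hu) (fq v hv') (fq w hw), huv, det3_self12]
  refine ⟨fun n => aff s (q n), ?_, ?_, ?_⟩
  · intro e he f hf u v hu hv' huv
    have hu' : u < M := by
      rcases hu with rfl | rfl
      · exact (hE e he).1
      · exact (hE e he).2
    have hv'' : v < M := by
      rcases hv' with rfl | rfl
      · exact (hE f hf).1
      · exact (hE f hf).2
    exact inj u hu' v hv'' huv
  · intro c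
    refine ⟨aff s (Q c), ?_⟩
    rintro e he rfl
    apply mem_line_of_det
    · intro h0
      exact hloop e he (inj _ (hE e he).1 _ (hE e he).2 h0)
    · rw [aff_det hs0 (fq _ (hE e he).1) (fq _ (hE e he).2) (fQ e he)]
      exact hc e he
  · intro e he f hf hef
    have e1 := fq _ (hE e he).1
    have e2 := fq _ (hE e he).2
    have f1 := fq _ (hE f hf).1
    have f2 := fq _ (hE f hf).2
    rcases hl e he f hf hef with h | h | h | h
    · exact line_ne_of_det (by rwa [Ne, aff_det hs0 e1 e2 f1])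
    · rw [Set.pair_comm (aff s (q f.1))]
      exact line_ne_of_det (by rwa [Ne, aff_det hs0 e1 e2 f2])
    · exact (line_ne_of_det (by rwa [Ne, aff_det hs0 f1 f2 e1])).symm
    · rw [Set.pair_comm (aff s (q e.1))]
      exact (line_ne_of_det (by rwa [Ne, aff_det hs0 f1 f2 e2])).symm

/-- generic choice of the parameters -/
lemma exists_params {M : ℕ} {Gf : ℕ → ℝ → ℕ → V3}
    (hgen : ∀ j < M, ∀ τ, τ ≠ 0 → ∀ a < 8, ∀ b < 8, ∀ c < 8, a ≠ b → a ≠ c → b ≠ c →
      det3 (Gf j τ a) (Gf j τ b) (Gf j τ c) ≠ 0)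
    (hfin : ∀ j < M, ∀ y z, Indep y z → ∀ r < 8, {τ | det3 y z (Gf j τ r) = 0}.Finite) :
    ∃ f : ℕ → ℝ, (∀ n, f n ≠ 0) ∧ ∀ m n, m < n → ∀ i < M, ∀ j < M, ∀ a < 8, ∀ b < 8, ∀ c < 8,
      a ≠ b → det3 (Gf i (f m) a) (Gf i (f m) b) (Gf j (f n) c) ≠ 0 := by
  classical
  apply exists_seq_of_forall_finset_exists (fun t : ℝ => t ≠ 0)
    (fun x y => ∀ i < M, ∀ j < M, ∀ a < 8, ∀ b < 8, ∀ c < 8,
      a ≠ b → det3 (Gf i x a) (Gf i x b) (Gf j y c) ≠ 0)
  intro s hs
  let T : Finset (ℝ × ℕ × ℕ × ℕ × ℕ × ℕ) :=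
    (s ×ˢ Finset.range M ×ˢ Finset.range M ×ˢ Finset.range 8 ×ˢ Finset.range 8 ×ˢ
      Finset.range 8).filter fun x => x.2.2.2.1 ≠ x.2.2.2.2.1
  have hfinT : (⋃ x ∈ T, {y | det3 (Gf x.2.1 x.1 x.2.2.2.1) (Gf x.2.1 x.1 x.2.2.2.2.1)
      (Gf x.2.2.1 y x.2.2.2.2.2) = 0}).Finite := by
    apply Set.Finite.biUnion T.finite_toSet
    rintro ⟨x, i, j, a, b, c⟩ hx
    simp only [T, Finset.mem_coe, Finset.mem_filter, Finset.mem_product, Finset.mem_range] at hx
    obtain ⟨⟨hxs, hi, hj, ha, hb, hc⟩, hab⟩ := hx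
    apply hfin j hj _ _ _ c hc
    obtain ⟨d, hd, hda, hdb⟩ : ∃ d < 8, d ≠ a ∧ d ≠ b := by
      by_cases h0 : a ≠ 0 ∧ b ≠ 0
      · exact ⟨0, by norm_num, by omega, by omega⟩
      · by_cases h1 : a ≠ 1 ∧ b ≠ 1
        · exact ⟨1, by norm_num, by omega, by omega⟩
        · exact ⟨2, by norm_num, by omega, by omega⟩
    exact ⟨_, hgen i hi x (hs x hxs) a ha b hb d hd hab (Ne.symm hda) (Ne.symm hdb)⟩
  obtain ⟨y, hy⟩ := (hfinT.union (Set.finite_singleton (0 : ℝ))).exists_notMem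
  refine ⟨y, ?_, ?_⟩
  · intro h0
    apply hy
    exact Or.inr h0
  · intro x hx i hi j hj a ha b hb c hc hab hdet
    apply hy
    left
    simp only [Set.mem_iUnion]
    refine ⟨(x, i, j, a, b, c), ?_, hdet⟩
    simp only [T, Finset.mem_filter, Finset.mem_product, Finset.mem_range]
    exact ⟨⟨hx, hi, hj, ha, hb, hc⟩, hab⟩

/-- entries of the list of edges of a gadget have different end-pairs -/
def Sep (e f : CEdge) : Prop :=
  ¬ ((e.1 = f.1 ∧ e.2.1 = f.2.1) ∨ (e.1 = f.2.1 ∧ e.2.1 = f.1))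

lemma Sep.symm' {e f : CEdge} (h : Sep e f) : Sep f e := by
  unfold Sep at *
  rintro (⟨h1, h2⟩ | ⟨h1, h2⟩)
  · exact h (Or.inl ⟨h1.symm, h2.symm⟩)
  · exact h (Or.inr ⟨h2.symm, h1.symm⟩)

lemma gadE_sep (s : Bool) (t : Tri) (j : ℕ) : (gadE s t j).Pairwise Sep := by
  cases s <;>
  · simp only [gadE, Bool.false_eq_true, if_false, if_true, List.pairwise_cons, List.mem_cons,
      List.not_mem_nil, or_false, Sep, vtx, forall_eq_or_imp, forall_eq, List.Pairwise.nil,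
      IsEmpty.forall_iff, implies_true, and_true]
    simp

lemma gadE_ends {s : Bool} {t : Tri} {j : ℕ} {e : CEdge} (he : e ∈ gadE s t j) :
    ∃ a b, a < 8 ∧ b < 8 ∧ a ≠ b ∧ e.1 = vtx j a ∧ e.2.1 = vtx j b := by
  cases s
  · simp only [gadE, Bool.false_eq_true, if_false, List.mem_cons, List.not_mem_nil, or_false] at he
    rcases he with rfl | rfl | rfl | rfl | rfl | rfl | rfl | rfl | rfl | rfl | rfl | rfl | rfl |
      rfl | rfl | rfl <;> exact ⟨_, _, by norm_num, by norm_num, by norm_num, rfl, rfl⟩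
  · simp only [gadE, if_true, List.mem_cons, List.not_mem_nil, or_false] at he
    rcases he with rfl | rfl | rfl | rfl | rfl | rfl | rfl | rfl | rfl | rfl | rfl | rfl | rfl |
      rfl | rfl | rfl <;> exact ⟨_, _, by norm_num, by norm_num, by norm_num, rfl, rfl⟩

lemma gadE_colour {s : Bool} {t : Tri} {j : ℕ} {e : CEdge} (he : e ∈ gadE s t j) :
    (∃ v, e.2.2 = oldv v) ∨ ∃ r < 8, e.2.2 = colr j r := by
  cases s
  · simp only [gadE, Bool.false_eq_true, if_false, List.mem_cons, List.not_mem_nil, or_false] at he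
    rcases he with rfl | rfl | rfl | rfl | rfl | rfl | rfl | rfl | rfl | rfl | rfl | rfl | rfl |
      rfl | rfl | rfl
    iterate 12 exact Or.inl ⟨_, rfl⟩
    · exact Or.inr ⟨1, by norm_num, rfl⟩
    · exact Or.inr ⟨2, by norm_num, rfl⟩
    · exact Or.inr ⟨3, by norm_num, rfl⟩
    · exact Or.inr ⟨4, by norm_num, rfl⟩
  · simp only [gadE, if_true, List.mem_cons, List.not_mem_nil, or_false] at he
    rcases he with rfl | rfl | rfl | rfl | rfl | rfl | rfl | rfl | rfl | rfl | rfl | rfl | rfl |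
      rfl | rfl | rfl
    iterate 6 exact Or.inl ⟨_, rfl⟩
    iterate 3 exact Or.inr ⟨0, by norm_num, rfl⟩
    · exact Or.inr ⟨1, by norm_num, rfl⟩
    · exact Or.inr ⟨2, by norm_num, rfl⟩
    · exact Or.inr ⟨3, by norm_num, rfl⟩
    · exact Or.inr ⟨4, by norm_num, rfl⟩
    · exact Or.inr ⟨5, by norm_num, rfl⟩
    · exact Or.inr ⟨6, by norm_num, rfl⟩
    · exact Or.inr ⟨7, by norm_num, rfl⟩

theorem draw_complete {S : List (Bool × Tri)} {p : ℕ → V3} (h0 : ∀ n, p n ≠ 0)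
    (hpos : ∀ t, (true, t) ∈ S → DetZ p t ∧ Indep3 p t) (hneg : ∀ t, (false, t) ∈ S → ¬ DetZ p t) :
    ∃ d, FDraw (drawE S) d := by
  classical
  have hex : ∀ j : ℕ, ∃ GC : (ℝ → ℕ → V3) × (ℝ → ℕ → V3), ∀ hj : j < S.length,
      GoodFam S[j].1 (p S[j].2.1) (p S[j].2.2.1) (p S[j].2.2.2) GC.1 GC.2 := by
    intro j
    by_cases hj : j < S.length
    · rcases hSj : S[j] with ⟨b, t⟩
      have hmem : (b, t) ∈ S := by rw [← hSj]; exact List.getElem_mem hj
      cases b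
      · obtain ⟨G, C, hGC⟩ := goodFam_neg (hneg t hmem)
        exact ⟨(G, C), fun _ => by simp only [hSj]; exact hGC⟩
      · obtain ⟨h1, h2, h3, h4⟩ := hpos t hmem
        obtain ⟨G, C, hGC⟩ := goodFam_pos h1 h2 h3 h4
        exact ⟨(G, C), fun _ => by simp only [hSj]; exact hGC⟩
    · exact ⟨(fun _ _ => 0, fun _ _ => 0), fun h => absurd h hj⟩
  choose GC hGC using hex
  obtain ⟨f, hf0, hf⟩ := exists_params (M := S.length) (Gf := fun j => (GC j).1)
    (fun j hj => (hGC j hj).gen) (fun j hj => (hGC j hj).fin)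
  let q : ℕ → V3 := fun n => (GC (n / 8)).1 (f (n / 8)) (n % 8)
  let Q : ℕ → V3 := fun n => if n % 2 = 0 then p (n / 2) else
    (GC (n / 16)).2 (f (n / 16)) (n / 2 % 8)
  have hqv : ∀ j r, r < 8 → q (vtx j r) = (GC j).1 (f j) r := by
    intro j r hr
    have h1 : (8 * j + r) / 8 = j := by omega
    have h2 : (8 * j + r) % 8 = r := by omega
    simp only [q, vtx, h1, h2]
  have hQo : ∀ v, Q (oldv v) = p v := by
    intro v
    simp [Q, oldv]
  have hQc : ∀ j r, r < 8 → Q (colr j r) = (GC j).2 (f j) r := by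
    intro j r hr
    have h1 : (16 * j + 2 * r + 1) % 2 = 1 := by omega
    have h2 : (16 * j + 2 * r + 1) / 16 = j := by omega
    have h3 : (16 * j + 2 * r + 1) / 2 % 8 = r := by omega
    simp only [Q, colr, h1, h2, h3, one_ne_zero, if_false]
  have hsame : ∀ j < S.length, ∀ a < 8, ∀ b < 8, ∀ c < 8, a ≠ b → a ≠ c → b ≠ c →
      det3 (q (vtx j a)) (q (vtx j b)) (q (vtx j c)) ≠ 0 := by
    intro j hj a ha b hb c hc hab hac hbc
    rw [hqv j a ha, hqv j b hb, hqv j c hc]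
    exact (hGC j hj).gen (f j) (hf0 j) a ha b hb c hc hab hac hbc
  have hcross : ∀ i < S.length, ∀ j < S.length, i < j → ∀ a < 8, ∀ b < 8, ∀ c < 8, a ≠ b →
      det3 (q (vtx i a)) (q (vtx i b)) (q (vtx j c)) ≠ 0 := by
    intro i hi j hj hij a ha b hb c hc hab
    rw [hqv i a ha, hqv i b hb, hqv j c hc]
    exact hf i j hij i hi j hj a ha b hb c hc hab
  have hdec : ∀ e ∈ drawE S, ∃ j, ∃ hj : j < S.length, e ∈ gadE S[j].1 S[j].2 j := by
    intro e he
    obtain ⟨⟨s, j⟩, hm, he⟩ := List.mem_flatMap.mp he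
    rw [List.mem_zipIdx_iff_getElem?] at hm
    simp only at hm he
    obtain ⟨hj, hs⟩ := List.getElem?_eq_some_iff.mp hm
    subst hs
    exact ⟨j, hj, he⟩
  have other : ∀ a b : ℕ, ∃ d < 8, d ≠ a ∧ d ≠ b := by
    intro a b
    by_cases h0 : a ≠ 0 ∧ b ≠ 0
    · exact ⟨0, by norm_num, by omega, by omega⟩
    · by_cases h1 : a ≠ 1 ∧ b ≠ 1
      · exact ⟨1, by norm_num, by omega, by omega⟩
      · exact ⟨2, by norm_num, by omega, by omega⟩
  have hvx : ∀ n < 8 * S.length, ∃ j < S.length, ∃ r < 8, n = vtx j r := by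
    intro n hn
    exact ⟨n / 8, by omega, n % 8, by omega, by simp only [vtx]; omega⟩
  apply draw_transfer (M := 8 * S.length) (q := q) (Q := Q)
  · intro e he
    obtain ⟨j, hj, he⟩ := hdec e he
    obtain ⟨a, b, ha, hb, -, h1, h2⟩ := gadE_ends he
    rw [h1, h2]; simp only [vtx]; omega
  · intro n hn
    obtain ⟨j, hj, r, hr, rfl⟩ := hvx n hn
    obtain ⟨d, hd, hdr, -⟩ := other r r
    obtain ⟨d', hd', hdr', hdd⟩ := other r d
    exact (ne_zero_of_det3 (hsame j hj r hr d hd d' hd' (Ne.symm hdr) (Ne.symm hdr')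
      (Ne.symm hdd))).1
  · intro e he
    obtain ⟨j, hj, he⟩ := hdec e he
    have hQne : ∀ r < 8, Q (colr j r) ≠ 0 := fun r hr => by
      rw [hQc j r hr]; exact (hGC j hj).cne _ _ (hf0 j)
    have hQne' : ∀ v, Q (oldv v) ≠ 0 := fun v => by rw [hQo]; exact h0 v
    rcases gadE_colour he with ⟨v, hv⟩ | ⟨r, hr, hr'⟩
    · rw [hv]; exact hQne' v
    · rw [hr']; exact hQne r hr
  · intro u hu v hv huv
    obtain ⟨i, hi, a, ha, rfl⟩ := hvx u hu
    obtain ⟨j, hj, b, hb, rfl⟩ := hvx v hv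
    rcases lt_trichotomy i j with hij | rfl | hij
    · obtain ⟨d, hd, hda, -⟩ := other a a
      refine ⟨vtx i d, by simp only [vtx]; omega, ?_⟩
      have := hcross i hi j hj hij a ha d hd b hb (Ne.symm hda)
      rw [det3_swap23]
      exact neg_ne_zero.mpr this
    · have hab : a ≠ b := by rintro rfl; exact huv rfl
      obtain ⟨d, hd, hda, hdb⟩ := other a b
      exact ⟨vtx i d, by simp only [vtx]; omega,
        hsame i hi a ha b hb d hd hab (Ne.symm hda) (Ne.symm hdb)⟩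
    · obtain ⟨d, hd, hdb, -⟩ := other b b
      refine ⟨vtx j d, by simp only [vtx]; omega, ?_⟩
      have := hcross j hj i hi hij b hb d hd a ha (Ne.symm hdb)
      intro h
      apply this
      rw [← h]
      simp only [det3]; ring
  · intro e he
    obtain ⟨j, hj, he⟩ := hdec e he
    obtain ⟨a, b, ha, hb, hab, h1, h2⟩ := gadE_ends he
    rw [h1, h2]; simp only [vtx]; omega
  · intro e he
    obtain ⟨j, hj, he⟩ := hdec e he
    have hmap : (q e.1, q e.2.1, Q e.2.2) ∈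
        (gadE S[j].1 S[j].2 j).map (fun e => (q e.1, q e.2.1, Q e.2.2)) :=
      List.mem_map_of_mem he
    rw [gadE_map] at hmap
    have hinc := (hGC j hj).inc (f j)
    have hcg : gadL S[j].1 (fun r => q (vtx j r)) (fun r => Q (colr j r)) (Q (oldv S[j].2.1))
        (Q (oldv S[j].2.2.1)) (Q (oldv S[j].2.2.2)) =
        gadL S[j].1 ((GC j).1 (f j)) ((GC j).2 (f j)) (p S[j].2.1) (p S[j].2.2.1)
          (p S[j].2.2.2) := by
      simp only [gadL, hqv j 0 (by norm_num), hqv j 1 (by norm_num), hqv j 2 (by norm_num),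
        hqv j 3 (by norm_num), hqv j 4 (by norm_num), hqv j 5 (by norm_num),
        hqv j 6 (by norm_num), hqv j 7 (by norm_num), hQo, hQc j 0 (by norm_num),
        hQc j 1 (by norm_num), hQc j 2 (by norm_num), hQc j 3 (by norm_num),
        hQc j 4 (by norm_num), hQc j 5 (by norm_num), hQc j 6 (by norm_num),
        hQc j 7 (by norm_num)]
    rw [hcg] at hmap
    exact hinc _ hmap
  · intro e he g hg heg
    obtain ⟨i, hi, he⟩ := hdec e he
    obtain ⟨j, hj, hg⟩ := hdec g hg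
    obtain ⟨a, b, ha, hb, hab, h1, h2⟩ := gadE_ends he
    obtain ⟨c, d, hc, hd, hcd, h3, h4⟩ := gadE_ends hg
    rcases lt_trichotomy i j with hij | hij | hij
    · left
      rw [h1, h2, h3]
      exact hcross i hi j hj hij a ha b hb c hc hab
    · subst hij
      have : Std.Symm Sep := ⟨fun _ _ h => h.symm'⟩
      have hsep : Sep e g := (gadE_sep S[i].1 S[i].2 i).forall he hg heg
      unfold Sep at hsep
      rw [h1, h2, h3, h4] at hsep ⊢
      have hsep' : ¬ ((a = c ∧ b = d) ∨ (a = d ∧ b = c)) := by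
        rintro (⟨rfl, rfl⟩ | ⟨rfl, rfl⟩)
        · exact hsep (Or.inl ⟨rfl, rfl⟩)
        · exact hsep (Or.inr ⟨rfl, rfl⟩)
      by_cases hc' : c = a ∨ c = b
      · right; left
        exact hsame i hi a ha b hb d hd hab (by omega) (by omega)
      · left
        exact hsame i hi a ha b hb c hc hab (by omega) (by omega)
    · right; right; left
      rw [h1, h3, h4]
      exact hcross j hj i hi hij c hc d hd a ha hcd

end Pool.Agent.Work.MP_8aa36a_lc
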