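import Pool.Agent.Work.MP_8aa36a_lc.Alg

/-!
Edge-coloured graphs as lists of coloured edges, faithful drawings, the gadget graph, soundness.
-/

set_option autoImplicit false

namespace Pool.Agent.Work.MP_8aa36a_lc

open Pool.Agent.Work.MP_8c8e41_lc

/-- a coloured edge `(u, v, c)` -/
abbrev CEdge := ℕ × ℕ × ℕ

/-- A faithful drawing of the graph with the given list of coloured edges: the vertices
(endpoints) are at distinct points, the supporting lines of every colour are concurrent, the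
supporting lines of different entries of the list are different. -/
def FDraw (E : List CEdge) (p : ℕ → ℝ × ℝ) : Prop :=
  (∀ e ∈ E, ∀ f ∈ E, ∀ u v, (u = e.1 ∨ u = e.2.1) → (v = f.1 ∨ v = f.2.1) → p u = p v → u = v) ∧
  (∀ c, ∃ q : ℝ × ℝ, ∀ e ∈ E, e.2.2 = c → q ∈ line[ℝ, p e.1, p e.2.1]) ∧
  (∀ e ∈ E, ∀ f ∈ E, e ≠ f → line[ℝ, p e.1, p e.2.1] ≠ line[ℝ, p f.1, p f.2.1])

/-- name of vertex `r < 8` of gadget `j` -/
def vtx (j r : ℕ) : ℕ := 8 * j + r

/-- colour proper to gadget `j` -/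
def colr (j r : ℕ) : ℕ := 16 * j + 2 * r + 1

/-- the edges of the gadget `j`: for a positive triple a prism, for a negative triple two
complete quadrangles. -/
def gadE (s : Bool) (t : Tri) (j : ℕ) : List CEdge :=
  if s then
    [(vtx j 0, vtx j 1, oldv t.1), (vtx j 3, vtx j 4, oldv t.1),
     (vtx j 1, vtx j 2, oldv t.2.1), (vtx j 4, vtx j 5, oldv t.2.1),
     (vtx j 0, vtx j 2, oldv t.2.2), (vtx j 3, vtx j 5, oldv t.2.2),
     (vtx j 0, vtx j 3, colr j 0), (vtx j 1, vtx j 4, colr j 0), (vtx j 2, vtx j 5, colr j 0),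
     (vtx j 0, vtx j 6, colr j 1), (vtx j 1, vtx j 6, colr j 2), (vtx j 2, vtx j 6, colr j 3),
     (vtx j 3, vtx j 7, colr j 4), (vtx j 4, vtx j 7, colr j 5), (vtx j 5, vtx j 7, colr j 6),
     (vtx j 6, vtx j 7, colr j 7)]
  else
    [(vtx j 0, vtx j 1, oldv t.1), (vtx j 2, vtx j 3, oldv t.1),
     (vtx j 4, vtx j 5, oldv t.1), (vtx j 6, vtx j 7, oldv t.1),
     (vtx j 0, vtx j 2, oldv t.2.1), (vtx j 1, vtx j 3, oldv t.2.1),
     (vtx j 4, vtx j 6, oldv t.2.1), (vtx j 5, vtx j 7, oldv t.2.1),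
     (vtx j 0, vtx j 3, oldv t.2.2), (vtx j 1, vtx j 2, oldv t.2.2),
     (vtx j 4, vtx j 7, oldv t.2.2), (vtx j 5, vtx j 6, oldv t.2.2),
     (vtx j 0, vtx j 4, colr j 1), (vtx j 1, vtx j 5, colr j 2), (vtx j 2, vtx j 6, colr j 3),
     (vtx j 3, vtx j 7, colr j 4)]

/-- the list of signed triples -/
def signed (P N : List Tri) : List (Bool × Tri) := P.map (fun t => (true, t)) ++
  N.map (fun t => (false, t))

/-- the coloured graph -/
def drawE (S : List (Bool × Tri)) : List CEdge := S.zipIdx.flatMap fun sj => gadE sj.1.1 sj.1.2 sj.2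

lemma det_of_mem_line {a b q : ℝ × ℝ} (h : q ∈ line[ℝ, a, b]) :
    det3 (lift a) (lift b) (lift q) = 0 := by
  rw [← collinear_iff_det]
  have : Collinear ℝ {q, a, b} := collinear_insert_of_mem_affineSpan_pair h
  have e : ({a, b, q} : Set (ℝ × ℝ)) = {q, a, b} := by
    ext x; simp only [Set.mem_insert_iff, Set.mem_singleton_iff]; tauto
  rw [e]; exact this

lemma mem_line_of_det {a b q : ℝ × ℝ} (hab : a ≠ b)
    (h : det3 (lift a) (lift b) (lift q) = 0) : q ∈ line[ℝ, a, b] := by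
  rw [← collinear_iff_det] at h
  exact h.mem_affineSpan_of_mem_of_ne (by simp) (by simp) (by simp) hab

lemma line_ne_of_det {a b c d : ℝ × ℝ} (h : det3 (lift a) (lift b) (lift c) ≠ 0) :
    line[ℝ, a, b] ≠ line[ℝ, c, d] := by
  intro h0
  apply h
  apply det_of_mem_line
  rw [h0]
  exact left_mem_affineSpan_pair ℝ c d

/-- two edges at a common vertex -/
lemma det_ne_of_line {a b c : ℝ × ℝ} (hab : a ≠ b) (hac : a ≠ c)
    (h : line[ℝ, a, b] ≠ line[ℝ, a, c]) : det3 (lift a) (lift b) (lift c) ≠ 0 := by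
  intro h0
  rw [← collinear_iff_det] at h0
  apply h
  rw [h0.affineSpan_eq_of_ne (p₁ := a) (p₂ := b) (by simp) (by simp) hab,
    h0.affineSpan_eq_of_ne (p₁ := a) (p₂ := c) (by simp) (by simp) hac]

lemma lift_ne_zero (a : ℝ × ℝ) : lift a ≠ 0 := by
  intro h
  have : (1 : ℝ) = 0 := congrArg (fun a : V3 => a.2.2) h
  exact one_ne_zero this

/-- non-collinearity of three vertices of a gadget joined by two edges -/
lemma tri_ne {E : List CEdge} {p : ℕ → ℝ × ℝ} (h : FDraw E p) {e f : CEdge} (he : e ∈ E)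
    (hf : f ∈ E) {x y z : ℕ} (hex : (e.1 = x ∧ e.2.1 = y) ∨ (e.1 = y ∧ e.2.1 = x))
    (hfx : (f.1 = x ∧ f.2.1 = z) ∨ (f.1 = z ∧ f.2.1 = x)) (hxy : x ≠ y) (hxz : x ≠ z)
    (hef : e ≠ f) :
    det3 (lift (p x)) (lift (p y)) (lift (p z)) ≠ 0 := by
  obtain ⟨h1, -, h3⟩ := h
  have a1 : p x ≠ p y := by
    intro h0
    exact hxy (h1 e he e he x y (by rcases hex with h | h <;> simp [← h.1, ← h.2])
      (by rcases hex with h | h <;> simp [← h.1, ← h.2]) h0)
  have a2 : p x ≠ p z := by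
    intro h0
    exact hxz (h1 f hf f hf x z (by rcases hfx with h | h <;> simp [← h.1, ← h.2])
      (by rcases hfx with h | h <;> simp [← h.1, ← h.2]) h0)
  apply det_ne_of_line a1 a2
  have := h3 e he f hf hef
  rcases hex with ⟨e1, e2⟩ | ⟨e1, e2⟩ <;> rcases hfx with ⟨f1, f2⟩ | ⟨f1, f2⟩ <;>
    rw [e1, e2, f1, f2] at this
  · exact this
  · rwa [Set.pair_comm (p z) (p x)] at this
  · rwa [Set.pair_comm (p y) (p x)] at this
  · rwa [Set.pair_comm (p y) (p x), Set.pair_comm (p z) (p x)] at this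

theorem draw_sound {S : List (Bool × Tri)} {p : ℕ → ℝ × ℝ} (h : FDraw (drawE S) p) :
    ∃ q : ℕ → V3, (∀ n, q n ≠ 0) ∧ (∀ t, (true, t) ∈ S → DetZ q t) ∧
      (∀ t, (false, t) ∈ S → ¬ DetZ q t) := by
  choose Q hQ using h.2.1
  refine ⟨fun v => lift (Q (oldv v)), fun n => lift_ne_zero _, ?_, ?_⟩
  · intro t ht
    obtain ⟨j, hj, hjt⟩ := List.getElem_of_mem ht
    have hmem : ((true, t), j) ∈ S.zipIdx := by
      rw [List.mem_zipIdx_iff_getElem?]
      simp [hj, hjt]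
    have hm : ∀ e ∈ gadE true t j, e ∈ drawE S := fun e he =>
      List.mem_flatMap.mpr ⟨_, hmem, he⟩
    have hc : ∀ e ∈ gadE true t j, det3 (lift (p e.1)) (lift (p e.2.1)) (lift (Q e.2.2)) = 0 :=
      fun e he => det_of_mem_line (hQ e.2.2 e (hm e he) rfl)
    have hn : ∀ (e f : CEdge), e ∈ gadE true t j → f ∈ gadE true t j → ∀ x y z : ℕ,
        ((e.1 = x ∧ e.2.1 = y) ∨ (e.1 = y ∧ e.2.1 = x)) →
        ((f.1 = x ∧ f.2.1 = z) ∨ (f.1 = z ∧ f.2.1 = x)) → x ≠ y → x ≠ z → y ≠ z →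
        det3 (lift (p x)) (lift (p y)) (lift (p z)) ≠ 0 := by
      intro e f he hf x y z h1 h2 h3 h4 h5
      refine tri_ne h (hm e he) (hm f hf) h1 h2 h3 h4 ?_
      rintro rfl
      rcases h1 with h1 | h1 <;> rcases h2 with h2 | h2 <;> omega
    have c1 := hc (vtx j 0, vtx j 3, colr j 0) (by simp [gadE])
    have c2 := hc (vtx j 1, vtx j 4, colr j 0) (by simp [gadE])
    have c3 := hc (vtx j 2, vtx j 5, colr j 0) (by simp [gadE])
    have c4 := hc (vtx j 0, vtx j 1, oldv t.1) (by simp [gadE])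
    have c5 := hc (vtx j 3, vtx j 4, oldv t.1) (by simp [gadE])
    have c6 := hc (vtx j 1, vtx j 2, oldv t.2.1) (by simp [gadE])
    have c7 := hc (vtx j 4, vtx j 5, oldv t.2.1) (by simp [gadE])
    have c8 := hc (vtx j 0, vtx j 2, oldv t.2.2) (by simp [gadE])
    have c9 := hc (vtx j 3, vtx j 5, oldv t.2.2) (by simp [gadE])
    have ne : ∀ a b : ℕ, a ≠ b → vtx j a ≠ vtx j b := by
      intro a b hab; simp only [vtx]; omega
    have n1 := hn (vtx j 0, vtx j 1, oldv t.1) (vtx j 0, vtx j 3, colr j 0) (by simp [gadE])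
      (by simp [gadE]) (vtx j 0) (vtx j 1) (vtx j 3) (by simp) (by simp) (ne _ _ (by norm_num))
      (ne _ _ (by norm_num)) (ne _ _ (by norm_num))
    have n2 := hn (vtx j 0, vtx j 1, oldv t.1) (vtx j 1, vtx j 4, colr j 0) (by simp [gadE])
      (by simp [gadE]) (vtx j 1) (vtx j 0) (vtx j 4) (by simp) (by simp) (ne _ _ (by norm_num))
      (ne _ _ (by norm_num)) (ne _ _ (by norm_num))
    have n3 := hn (vtx j 1, vtx j 2, oldv t.2.1) (vtx j 1, vtx j 4, colr j 0) (by simp [gadE])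
      (by simp [gadE]) (vtx j 1) (vtx j 2) (vtx j 4) (by simp) (by simp) (ne _ _ (by norm_num))
      (ne _ _ (by norm_num)) (ne _ _ (by norm_num))
    have n4 := hn (vtx j 1, vtx j 2, oldv t.2.1) (vtx j 2, vtx j 5, colr j 0) (by simp [gadE])
      (by simp [gadE]) (vtx j 2) (vtx j 1) (vtx j 5) (by simp) (by simp) (ne _ _ (by norm_num))
      (ne _ _ (by norm_num)) (ne _ _ (by norm_num))
    have n5 := hn (vtx j 0, vtx j 2, oldv t.2.2) (vtx j 0, vtx j 3, colr j 0) (by simp [gadE])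
      (by simp [gadE]) (vtx j 0) (vtx j 2) (vtx j 3) (by simp) (by simp) (ne _ _ (by norm_num))
      (ne _ _ (by norm_num)) (ne _ _ (by norm_num))
    have n6 := hn (vtx j 0, vtx j 2, oldv t.2.2) (vtx j 2, vtx j 5, colr j 0) (by simp [gadE])
      (by simp [gadE]) (vtx j 2) (vtx j 0) (vtx j 5) (by simp) (by simp) (ne _ _ (by norm_num))
      (ne _ _ (by norm_num)) (ne _ _ (by norm_num))
    have m1 := hn (vtx j 3, vtx j 4, oldv t.1) (vtx j 1, vtx j 4, colr j 0) (by simp [gadE])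
      (by simp [gadE]) (vtx j 4) (vtx j 3) (vtx j 1) (by simp) (by simp) (ne _ _ (by norm_num))
      (ne _ _ (by norm_num)) (ne _ _ (by norm_num))
    have m2 := hn (vtx j 3, vtx j 4, oldv t.1) (vtx j 0, vtx j 3, colr j 0) (by simp [gadE])
      (by simp [gadE]) (vtx j 3) (vtx j 4) (vtx j 0) (by simp) (by simp) (ne _ _ (by norm_num))
      (ne _ _ (by norm_num)) (ne _ _ (by norm_num))
    have m3 := hn (vtx j 4, vtx j 5, oldv t.2.1) (vtx j 2, vtx j 5, colr j 0) (by simp [gadE])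
      (by simp [gadE]) (vtx j 5) (vtx j 4) (vtx j 2) (by simp) (by simp) (ne _ _ (by norm_num))
      (ne _ _ (by norm_num)) (ne _ _ (by norm_num))
    have m5 := hn (vtx j 3, vtx j 5, oldv t.2.2) (vtx j 2, vtx j 5, colr j 0) (by simp [gadE])
      (by simp [gadE]) (vtx j 5) (vtx j 3) (vtx j 2) (by simp) (by simp) (ne _ _ (by norm_num))
      (ne _ _ (by norm_num)) (ne _ _ (by norm_num))
    have m6 := hn (vtx j 3, vtx j 5, oldv t.2.2) (vtx j 0, vtx j 3, colr j 0) (by simp [gadE])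
      (by simp [gadE]) (vtx j 3) (vtx j 5) (vtx j 0) (by simp) (by simp) (ne _ _ (by norm_num))
      (ne _ _ (by norm_num)) (ne _ _ (by norm_num))
    simp only at c1 c2 c3 c4 c5 c6 c7 c8 c9
    refine prism_sound c1 c2 c3 c4 c5 c6 c7 c8 c9 (lift_ne_zero _) n1 ?_ n3 ?_ n5 ?_ ?_ ?_ ?_ ?_ ?_
    · intro h0; apply n2; rw [det3_swap12, h0, neg_zero]
    · intro h0; apply n4; rw [det3_swap12, h0, neg_zero]
    · intro h0; apply n6; rw [det3_swap12, h0, neg_zero]
    · intro h0; apply m1; simp only [det3] at h0 ⊢; linarith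
    · intro h0; apply m2; simp only [det3] at h0 ⊢; linarith
    · intro h0; apply m3; simp only [det3] at h0 ⊢; linarith
    · intro h0; apply m5; simp only [det3] at h0 ⊢; linarith
    · intro h0; apply m6; simp only [det3] at h0 ⊢; linarith
  · intro t ht
    obtain ⟨j, hj, hjt⟩ := List.getElem_of_mem ht
    have hmem : ((false, t), j) ∈ S.zipIdx := by
      rw [List.mem_zipIdx_iff_getElem?]
      simp [hj, hjt]
    have hm : ∀ e ∈ gadE false t j, e ∈ drawE S := fun e he =>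
      List.mem_flatMap.mpr ⟨_, hmem, he⟩
    have hc : ∀ e ∈ gadE false t j, det3 (lift (p e.1)) (lift (p e.2.1)) (lift (Q e.2.2)) = 0 :=
      fun e he => det_of_mem_line (hQ e.2.2 e (hm e he) rfl)
    have hn : ∀ (e f : CEdge), e ∈ gadE false t j → f ∈ gadE false t j → ∀ x y z : ℕ,
        ((e.1 = x ∧ e.2.1 = y) ∨ (e.1 = y ∧ e.2.1 = x)) →
        ((f.1 = x ∧ f.2.1 = z) ∨ (f.1 = z ∧ f.2.1 = x)) → x ≠ y → x ≠ z → y ≠ z →
        det3 (lift (p x)) (lift (p y)) (lift (p z)) ≠ 0 := by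
      intro e f he hf x y z h1 h2 h3 h4 h5
      refine tri_ne h (hm e he) (hm f hf) h1 h2 h3 h4 ?_
      rintro rfl
      rcases h1 with h1 | h1 <;> rcases h2 with h2 | h2 <;> omega
    have ne : ∀ a b : ℕ, a ≠ b → vtx j a ≠ vtx j b := by
      intro a b hab; simp only [vtx]; omega
    have c1 := hc (vtx j 0, vtx j 1, oldv t.1) (by simp [gadE])
    have c2 := hc (vtx j 2, vtx j 3, oldv t.1) (by simp [gadE])
    have c3 := hc (vtx j 0, vtx j 2, oldv t.2.1) (by simp [gadE])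
    have c4 := hc (vtx j 1, vtx j 3, oldv t.2.1) (by simp [gadE])
    have c5 := hc (vtx j 0, vtx j 3, oldv t.2.2) (by simp [gadE])
    have c6 := hc (vtx j 1, vtx j 2, oldv t.2.2) (by simp [gadE])
    have n1 := hn (vtx j 0, vtx j 1, oldv t.1) (vtx j 0, vtx j 2, oldv t.2.1) (by simp [gadE])
      (by simp [gadE]) (vtx j 0) (vtx j 1) (vtx j 2) (by simp) (by simp) (ne _ _ (by norm_num))
      (ne _ _ (by norm_num)) (ne _ _ (by norm_num))
    have n2 := hn (vtx j 0, vtx j 1, oldv t.1) (vtx j 0, vtx j 3, oldv t.2.2) (by simp [gadE])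
      (by simp [gadE]) (vtx j 0) (vtx j 1) (vtx j 3) (by simp) (by simp) (ne _ _ (by norm_num))
      (ne _ _ (by norm_num)) (ne _ _ (by norm_num))
    have n3 := hn (vtx j 0, vtx j 2, oldv t.2.1) (vtx j 0, vtx j 3, oldv t.2.2) (by simp [gadE])
      (by simp [gadE]) (vtx j 0) (vtx j 2) (vtx j 3) (by simp) (by simp) (ne _ _ (by norm_num))
      (ne _ _ (by norm_num)) (ne _ _ (by norm_num))
    have n4 := hn (vtx j 1, vtx j 2, oldv t.2.2) (vtx j 1, vtx j 3, oldv t.2.1) (by simp [gadE])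
      (by simp [gadE]) (vtx j 1) (vtx j 2) (vtx j 3) (by simp) (by simp) (ne _ _ (by norm_num))
      (ne _ _ (by norm_num)) (ne _ _ (by norm_num))
    simp only at c1 c2 c3 c4 c5 c6
    exact quad_sound (lift_ne_zero _) (lift_ne_zero _) (lift_ne_zero _) n1 n2 n3 n4 c1 c2 c3 c4 c5 c6

end Pool.Agent.Work.MP_8aa36a_lc
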