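import Pool.Agent.Work.MP_8aa36a_lc.Draw

/-!
One-parameter families of gadgets in general position.
-/

set_option autoImplicit false

namespace Pool.Agent.Work.MP_8aa36a_lc

open Pool.Agent.Work.MP_8c8e41_lc

/-- coordinates of the vertices of a positive gadget -/
def cP (r : ℕ) : ℤ × ℤ × ℤ :=
  match r with
  | 0 => (0, 0, 1)
  | 1 => (-1, 0, 1)
  | 2 => (-1, -1, 1)
  | 3 => (2, -1, 2)
  | 4 => (1, -1, 2)
  | 5 => (1, -2, 2)
  | 6 => (0, 1, 1)
  | _ => (2, 1, 1)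

/-- coordinates of the vertices of a negative gadget -/
def cN (r : ℕ) : ℤ × ℤ × ℤ :=
  match r with
  | 0 => (1, 1, 1)
  | 1 => (-1, 1, 1)
  | 2 => (1, -1, 1)
  | 3 => (1, 1, -1)
  | 4 => (1, 2, 3)
  | 5 => (-1, 2, 3)
  | 6 => (1, -2, 3)
  | _ => (1, 2, -3)

def idet (p q r : ℤ × ℤ × ℤ) : ℤ :=
  p.1 * (q.2.1 * r.2.2 - q.2.2 * r.2.1) - p.2.1 * (q.1 * r.2.2 - q.2.2 * r.1)
    + p.2.2 * (q.1 * r.2.1 - q.2.1 * r.1)

lemma cP_gen' : ∀ a b c : Fin 8, a ≠ b → a ≠ c → b ≠ c →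
    idet (cP a) (cP b) (cP c) ≠ 0 := by
  decide +kernel

lemma cN_gen' : ∀ a b c : Fin 8, a ≠ b → a ≠ c → b ≠ c →
    idet (cN a) (cN b) (cN c) ≠ 0 := by
  decide +kernel

lemma cP_gen (a : ℕ) (ha : a < 8) (b : ℕ) (hb : b < 8) (c : ℕ) (hc : c < 8) (h1 : a ≠ b)
    (h2 : a ≠ c) (h3 : b ≠ c) : idet (cP a) (cP b) (cP c) ≠ 0 :=
  cP_gen' ⟨a, ha⟩ ⟨b, hb⟩ ⟨c, hc⟩ (by simpa using h1) (by simpa using h2) (by simpa using h3)

lemma cN_gen (a : ℕ) (ha : a < 8) (b : ℕ) (hb : b < 8) (c : ℕ) (hc : c < 8) (h1 : a ≠ b)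
    (h2 : a ≠ c) (h3 : b ≠ c) : idet (cN a) (cN b) (cN c) ≠ 0 :=
  cN_gen' ⟨a, ha⟩ ⟨b, hb⟩ ⟨c, hc⟩ (by simpa using h1) (by simpa using h2) (by simpa using h3)

lemma cP_third : ∀ a < 8, (cP a).2.2 ≠ 0 := by decide

lemma cN_all : ∀ a < 8, (cN a).1 ≠ 0 ∧ (cN a).2.1 ≠ 0 ∧ (cN a).2.2 ≠ 0 := by decide

/-- combination of three vectors with integer coordinates -/
noncomputable def cmb (c : ℤ × ℤ × ℤ) (e1 e2 e3 : V3) : V3 :=
  (c.1 : ℝ) • e1 + (c.2.1 : ℝ) • e2 + (c.2.2 : ℝ) • e3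

lemma det3_cmb (a b c : ℤ × ℤ × ℤ) (e1 e2 e3 : V3) :
    det3 (cmb a e1 e2 e3) (cmb b e1 e2 e3) (cmb c e1 e2 e3) =
      (idet a b c : ℤ) * det3 e1 e2 e3 := by
  simp only [cmb, det3_comb]
  congr 1
  simp only [det3, idet]
  push_cast
  ring

/-- the incidences of a gadget -/
def gadL (s : Bool) (g c : ℕ → V3) (P Q R : V3) : List (V3 × V3 × V3) :=
  if s then
    [(g 0, g 1, P), (g 3, g 4, P), (g 1, g 2, Q), (g 4, g 5, Q), (g 0, g 2, R), (g 3, g 5, R),
     (g 0, g 3, c 0), (g 1, g 4, c 0), (g 2, g 5, c 0),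
     (g 0, g 6, c 1), (g 1, g 6, c 2), (g 2, g 6, c 3),
     (g 3, g 7, c 4), (g 4, g 7, c 5), (g 5, g 7, c 6), (g 6, g 7, c 7)]
  else
    [(g 0, g 1, P), (g 2, g 3, P), (g 4, g 5, P), (g 6, g 7, P),
     (g 0, g 2, Q), (g 1, g 3, Q), (g 4, g 6, Q), (g 5, g 7, Q),
     (g 0, g 3, R), (g 1, g 2, R), (g 4, g 7, R), (g 5, g 6, R),
     (g 0, g 4, c 1), (g 1, g 5, c 2), (g 2, g 6, c 3), (g 3, g 7, c 4)]

lemma gadE_map (s : Bool) (t : Tri) (j : ℕ) (q Q : ℕ → V3) :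
    (gadE s t j).map (fun e => (q e.1, q e.2.1, Q e.2.2)) =
      gadL s (fun r => q (vtx j r)) (fun r => Q (colr j r)) (Q (oldv t.1)) (Q (oldv t.2.1))
        (Q (oldv t.2.2)) := by
  cases s <;> rfl

/-- a quadratic equation has finitely many solutions -/
lemma quad_finite {a b c : ℝ} (h : ¬ (a = 0 ∧ b = 0 ∧ c = 0)) :
    {t : ℝ | a + t * b + t ^ 2 * c = 0}.Finite := by
  let f : Polynomial ℝ := Polynomial.C a + Polynomial.C b * Polynomial.X +
    Polynomial.C c * Polynomial.X ^ 2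
  have hf : f ≠ 0 := by
    intro h0
    apply h
    have c0 : f.coeff 0 = 0 := by rw [h0]; simp
    have c1 : f.coeff 1 = 0 := by rw [h0]; simp
    have c2 : f.coeff 2 = 0 := by rw [h0]; simp
    simp [f, Polynomial.coeff_X, Polynomial.coeff_X_pow, Polynomial.coeff_C] at c0 c1 c2
    exact ⟨c0, c1, c2⟩
  apply (f.roots.toFinset.finite_toSet).subset
  intro t ht
  simp only [Set.mem_setOf_eq] at ht
  simp only [Finset.mem_coe, Multiset.mem_toFinset]
  rw [Polynomial.mem_roots hf]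
  simp only [f, Polynomial.IsRoot, Polynomial.eval_add, Polynomial.eval_mul, Polynomial.eval_C,
    Polynomial.eval_X, Polynomial.eval_pow]
  linarith

/-- a moving point avoids a fixed line -/
lemma curve_finite {y z x0 x1 x2 : V3} (h : Indep y z) (hx : det3 x0 x1 x2 ≠ 0) :
    {t : ℝ | det3 y z (x0 + t • x1 + t ^ 2 • x2) = 0}.Finite := by
  have e : ∀ t : ℝ, det3 y z (x0 + t • x1 + t ^ 2 • x2) =
      det3 y z x0 + t * det3 y z x1 + t ^ 2 * det3 y z x2 := by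
    intro t
    simp only [det3, Prod.smul_fst, Prod.smul_snd, smul_eq_mul, Prod.fst_add, Prod.snd_add]
    ring
  simp only [e]
  apply quad_finite
  rintro ⟨h0, h1, h2⟩
  obtain ⟨r, hr⟩ := h
  obtain ⟨a, b, c, hp, -, -, -⟩ := exists_coords hx r
  apply hr
  rw [hp]
  have : det3 y z (a • x0 + b • x1 + c • x2) =
      a * det3 y z x0 + b * det3 y z x1 + c * det3 y z x2 := by
    simp only [det3, Prod.smul_fst, Prod.smul_snd, smul_eq_mul, Prod.fst_add, Prod.snd_add]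
    ring
  rw [this, h0, h1, h2]; ring

/-- a good family of gadgets -/
structure GoodFam (s : Bool) (P Q R : V3) (G C : ℝ → ℕ → V3) : Prop where
  cne : ∀ τ r, τ ≠ 0 → C τ r ≠ 0
  gen : ∀ τ, τ ≠ 0 → ∀ a < 8, ∀ b < 8, ∀ c < 8, a ≠ b → a ≠ c → b ≠ c →
    det3 (G τ a) (G τ b) (G τ c) ≠ 0
  fin : ∀ y z, Indep y z → ∀ r < 8, {τ | det3 y z (G τ r) = 0}.Finite
  inc : ∀ τ, ∀ x ∈ gadL s (G τ) (C τ) P Q R, det3 x.1 x.2.1 x.2.2 = 0

lemma goodFam_neg {P Q R : V3} (h : det3 P Q R ≠ 0) : ∃ G C, GoodFam false P Q R G C := by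
  let G : ℝ → ℕ → V3 := fun τ r => cmb (cN r) P (τ • Q) (τ ^ 2 • R)
  have hgen : ∀ τ, τ ≠ 0 → ∀ a < 8, ∀ b < 8, ∀ c < 8, a ≠ b → a ≠ c → b ≠ c →
      det3 (G τ a) (G τ b) (G τ c) ≠ 0 := by
    intro τ hτ a ha b hb c hc hab hac hbc
    simp only [G, det3_cmb]
    refine mul_ne_zero (by exact_mod_cast cN_gen a ha b hb c hc hab hac hbc) ?_
    rw [det3_smul2, det3_smul3]
    exact mul_ne_zero hτ (mul_ne_zero (pow_ne_zero 2 hτ) h)
  refine ⟨G, fun τ r => G τ (if r - 1 < 8 then r - 1 else 0), ⟨?_, hgen, ?_, ?_⟩⟩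
  · intro τ r hτ
    have hlt : (if r - 1 < 8 then r - 1 else 0) < 8 := by split <;> omega
    generalize (if r - 1 < 8 then r - 1 else 0) = a at *
    by_cases h0 : a = 0
    · subst h0
      exact (ne_zero_of_det3 (hgen τ hτ 0 (by norm_num) 1 (by norm_num) 2 (by norm_num)
        (by norm_num) (by norm_num) (by norm_num))).1
    · by_cases h1 : a = 1
      · subst h1
        exact (ne_zero_of_det3 (hgen τ hτ 0 (by norm_num) 1 (by norm_num) 2 (by norm_num)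
          (by norm_num) (by norm_num) (by norm_num))).2.1
      · exact (ne_zero_of_det3 (hgen τ hτ 0 (by norm_num) 1 (by norm_num) a hlt
          (by norm_num) (by omega) (by omega))).2.2
  · intro y z hyz r hr
    obtain ⟨h1, h2, h3⟩ := cN_all r hr
    have e : ∀ τ, G τ r = ((cN r).1 : ℝ) • P + τ • (((cN r).2.1 : ℝ) • Q) +
        τ ^ 2 • (((cN r).2.2 : ℝ) • R) := by
      intro τ
      simp only [G, cmb]
      rw [smul_comm τ, smul_comm (τ ^ 2)]
    simp only [e]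
    apply curve_finite hyz
    rw [det3_smul1, det3_smul2, det3_smul3]
    refine mul_ne_zero (by exact_mod_cast h1) (mul_ne_zero (by exact_mod_cast h2)
      (mul_ne_zero (by exact_mod_cast h3) h))
  · intro τ x hx
    simp only [gadL, Bool.false_eq_true, if_false, List.mem_cons, List.not_mem_nil, or_false] at hx
    rcases hx with rfl | rfl | rfl | rfl | rfl | rfl | rfl | rfl | rfl | rfl | rfl | rfl | rfl |
      rfl | rfl | rfl
    all_goals
      simp only [G, cmb, cN, det3, Prod.smul_fst, Prod.smul_snd, smul_eq_mul, Prod.fst_add,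
        Prod.snd_add]
      push_cast
      ring

lemma goodFam_pos {P Q R : V3} (h : det3 P Q R = 0) (i1 : Indep P Q) (i2 : Indep P R)
    (i3 : Indep Q R) : ∃ G C, GoodFam true P Q R G C := by
  obtain ⟨w, hw⟩ := i1
  obtain ⟨x, y, z, hp, -, -, hz⟩ := exists_coords hw R
  have hz0 : z = 0 := by
    rw [h] at hz; exact (mul_eq_zero.mp hz).resolve_right hw
  subst hz0
  rw [zero_smul, add_zero] at hp
  have hx : x ≠ 0 := by
    rintro rfl
    obtain ⟨r, hr⟩ := i3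
    apply hr
    rw [hp, zero_smul, zero_add, det3_smul2, det3_self12, mul_zero]
  have hy : y ≠ 0 := by
    rintro rfl
    obtain ⟨r, hr⟩ := i2
    apply hr
    rw [hp, zero_smul, add_zero, det3_smul2, det3_self12, mul_zero]
  let W : ℝ → V3 := fun τ => w + τ • (x • P) + τ ^ 2 • (y • Q)
  have hW : ∀ τ, det3 (x • P) (y • Q) (W τ) ≠ 0 := by
    intro τ
    have : det3 (x • P) (y • Q) (W τ) = x * (y * det3 P Q w) := by
      simp only [W, det3, Prod.smul_fst, Prod.smul_snd, smul_eq_mul, Prod.fst_add, Prod.snd_add]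
      ring
    rw [this]
    exact mul_ne_zero hx (mul_ne_zero hy hw)
  let G : ℝ → ℕ → V3 := fun τ r => cmb (cP r) (x • P) (y • Q) (W τ)
  have hgen : ∀ τ, τ ≠ 0 → ∀ a < 8, ∀ b < 8, ∀ c < 8, a ≠ b → a ≠ c → b ≠ c →
      det3 (G τ a) (G τ b) (G τ c) ≠ 0 := by
    intro τ hτ a ha b hb c hc hab hac hbc
    simp only [G, det3_cmb]
    exact mul_ne_zero (by exact_mod_cast cP_gen a ha b hb c hc hab hac hbc) (hW τ)
  let C : ℝ → ℕ → V3 := fun τ r =>
    if r = 0 then cmb (2, -1, 1) (x • P) (y • Q) (W τ)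
    else if r ≤ 3 ∨ 7 ≤ r then G τ 6 else G τ 7
  refine ⟨G, C, ⟨?_, hgen, ?_, ?_⟩⟩
  · intro τ r hτ
    simp only [C]
    split
    · intro h0
      have h1 : det3 (x • P) (y • Q) (cmb (2, -1, 1) (x • P) (y • Q) (W τ)) = 0 := by
        rw [h0]; simp [det3]
      apply hW τ
      rw [← h1]
      simp only [cmb, det3, Prod.smul_fst, Prod.smul_snd, smul_eq_mul, Prod.fst_add, Prod.snd_add]
      push_cast
      ring
    · split
      · exact (ne_zero_of_det3 (hgen τ hτ 6 (by norm_num) 1 (by norm_num) 2 (by norm_num)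
          (by norm_num) (by norm_num) (by norm_num))).1
      · exact (ne_zero_of_det3 (hgen τ hτ 7 (by norm_num) 1 (by norm_num) 2 (by norm_num)
          (by norm_num) (by norm_num) (by norm_num))).1
  · intro y' z' hyz r hr
    have h3 := cP_third r hr
    have e : ∀ τ, G τ r = (((cP r).1 : ℝ) • (x • P) + ((cP r).2.1 : ℝ) • (y • Q) +
        ((cP r).2.2 : ℝ) • w) + τ • (((cP r).2.2 : ℝ) • (x • P)) +
        τ ^ 2 • (((cP r).2.2 : ℝ) • (y • Q)) := by
      intro τ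
      simp only [G, cmb, W, smul_add]
      rw [smul_comm τ (((cP r).2.2 : ℝ)), smul_comm (τ ^ 2) (((cP r).2.2 : ℝ))]
      abel
    simp only [e]
    apply curve_finite hyz
    have : det3 (((cP r).1 : ℝ) • (x • P) + ((cP r).2.1 : ℝ) • (y • Q) +
        ((cP r).2.2 : ℝ) • w) (((cP r).2.2 : ℝ) • (x • P)) (((cP r).2.2 : ℝ) • (y • Q)) =
        ((cP r).2.2 : ℝ) ^ 3 * (x * (y * det3 P Q w)) := by
      simp only [det3, Prod.smul_fst, Prod.smul_snd, smul_eq_mul, Prod.fst_add, Prod.snd_add]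
      ring
    rw [this]
    refine mul_ne_zero (pow_ne_zero 3 (by exact_mod_cast h3)) (mul_ne_zero hx (mul_ne_zero hy hw))
  · intro τ x' hx'
    simp only [gadL, if_true, List.mem_cons, List.not_mem_nil, or_false] at hx'
    rcases hx' with rfl | rfl | rfl | rfl | rfl | rfl | rfl | rfl | rfl | rfl | rfl | rfl | rfl |
      rfl | rfl | rfl
    all_goals
      simp [G, C, cmb, cP, det3, hp, Prod.smul_fst, Prod.smul_snd, smul_eq_mul, Prod.fst_add,
        Prod.snd_add]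
      try ring

end Pool.Agent.Work.MP_8aa36a_lc
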