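import Pool.Agent.Work.MP_8aa36a_lc.Complete

/-!
The graph of the reduction is simple, properly coloured and 4-regular; final correctness.
-/

set_option autoImplicit false

namespace Pool.Agent.Work.MP_8aa36a_lc

open Pool.Agent.Work.MP_8c8e41_lc

/-- `v` is an end of the edge -/
def EndOf (v : ℕ) (e : CEdge) : Prop := e.1 = v ∨ e.2.1 = v

instance (v : ℕ) (e : CEdge) : Decidable (EndOf v e) := inferInstanceAs (Decidable (_ ∨ _))

/-- edges with a common end have different colours -/
def Prop2 (e f : CEdge) : Prop := ∀ v, EndOf v e → EndOf v f → e.2.2 ≠ f.2.2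

lemma stageBNeg_dist (L : List TGate) : ∀ t ∈ stageBNeg L, Tri.Dist t := by
  intro t ht
  rcases List.mem_append.mp ht with ht | ht
  · simp only [baseNeg, List.mem_cons, List.not_mem_nil, or_false] at ht
    rcases ht with rfl | rfl | rfl | rfl | rfl <;> simp [Tri.Dist]
  · obtain ⟨g, hg, ht⟩ := List.mem_flatMap.mp ht
    simp only [gateNeg, List.mem_cons, List.not_mem_nil, or_false] at ht
    rcases ht with rfl | rfl | rfl <;> (simp only [Tri.Dist, valv]; omega)

lemma gadE_prop (s : Bool) {t : Tri} (ht : Tri.Dist t) (j : ℕ) :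
    (gadE s t j).Pairwise Prop2 := by
  obtain ⟨h1, h2, h3⟩ := ht
  cases s
  · simp only [gadE, Bool.false_eq_true, if_false, List.pairwise_cons, List.mem_cons,
      List.not_mem_nil, or_false, Prop2, EndOf, vtx, oldv, colr, forall_eq_or_imp, forall_eq,
      List.Pairwise.nil, IsEmpty.forall_iff, implies_true, and_true]
    repeat' apply And.intro
    all_goals
      intro v hv hv'
      omega
  · simp only [gadE, if_true, List.pairwise_cons, List.mem_cons,
      List.not_mem_nil, or_false, Prop2, EndOf, vtx, oldv, colr, forall_eq_or_imp, forall_eq,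
      List.Pairwise.nil, IsEmpty.forall_iff, implies_true, and_true]
    repeat' apply And.intro
    all_goals
      intro v hv hv'
      omega

lemma gadE_count (s : Bool) (t : Tri) (j r : ℕ) (hr : r < 8) :
    (gadE s t j).countP (fun e => EndOf (vtx j r) e) = 4 := by
  cases s
  · simp only [gadE, Bool.false_eq_true, if_false, EndOf, vtx, List.countP_cons, List.countP_nil]
    interval_cases r <;> simp
  · simp only [gadE, if_true, EndOf, vtx, List.countP_cons, List.countP_nil]
    interval_cases r <;> simp

lemma gadE_count_ne (s : Bool) (t : Tri) (j v : ℕ) (hv : v / 8 ≠ j) :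
    (gadE s t j).countP (fun e => EndOf v e) = 0 := by
  rw [List.countP_eq_zero]
  intro e he
  obtain ⟨a, b, ha, hb, -, h1, h2⟩ := gadE_ends he
  simp only [EndOf, h1, h2, vtx, decide_eq_true_eq]
  omega

lemma sum_zipIdx {α : Type*} (S : List α) (w k : ℕ) :
    ((S.zipIdx k).map fun sj => if w = sj.2 then 4 else 0).sum =
      if k ≤ w ∧ w < k + S.length then 4 else 0 := by
  induction S generalizing k with
  | nil =>
    simp only [List.zipIdx_nil, List.map_nil, List.sum_nil, List.length_nil]
    rw [if_neg (by omega)]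
  | cons a S ih =>
    rw [List.zipIdx_cons, List.map_cons, List.sum_cons, ih]
    simp only [List.length_cons]
    by_cases h : w = k
    · rw [if_pos h, if_neg (by omega), if_pos (by omega)]
    · rw [if_neg h]
      by_cases h2 : k + 1 ≤ w ∧ w < k + 1 + S.length
      · rw [if_pos h2, if_pos (by omega)]
      · rw [if_neg h2, if_neg (by omega)]

/-- every vertex has degree four -/
theorem drawE_regular (S : List (Bool × Tri)) (v : ℕ) (hv : v < 8 * S.length) :
    (drawE S).countP (fun e => EndOf v e) = 4 := by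
  unfold drawE
  rw [List.countP_flatMap]
  have : (S.zipIdx.map ((List.countP fun e => decide (EndOf v e)) ∘ fun sj =>
      gadE sj.1.1 sj.1.2 sj.2)) = (S.zipIdx.map fun sj => if v / 8 = sj.2 then 4 else 0) := by
    apply List.map_congr_left
    rintro ⟨⟨s, t⟩, j⟩ -
    simp only [Function.comp_apply]
    split
    · rename_i h
      have h5 := gadE_count s t j (v % 8) (by omega)
      have h6 : vtx j (v % 8) = v := by simp only [vtx]; omega
      rw [h6] at h5
      exact h5
    · rename_i h
      exact gadE_count_ne s t j v h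
  rw [this, sum_zipIdx, if_pos (by omega)]

/-- the ends of the edges -/
theorem drawE_ends (S : List (Bool × Tri)) : ∀ e ∈ drawE S,
    e.1 < 8 * S.length ∧ e.2.1 < 8 * S.length ∧ e.1 ≠ e.2.1 := by
  intro e he
  obtain ⟨⟨s, j⟩, hm, he⟩ := List.mem_flatMap.mp he
  rw [List.mem_zipIdx_iff_getElem?] at hm
  simp only at hm he
  obtain ⟨hj, hs⟩ := List.getElem?_eq_some_iff.mp hm
  obtain ⟨a, b, ha, hb, hab, h1, h2⟩ := gadE_ends he
  rw [h1, h2]; simp only [vtx]; omega

/-- no repeated edges -/
theorem drawE_sep (S : List (Bool × Tri)) : (drawE S).Pairwise Sep := by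
  unfold drawE
  refine pairwise_flatMap_of (zipIdx_pairwise _ 0) (fun a _ => gadE_sep _ _ _) ?_
  rintro ⟨s, j⟩ - ⟨s', j'⟩ - hjj e he f hf
  obtain ⟨a, b, ha, hb, -, h1, h2⟩ := gadE_ends he
  obtain ⟨c, d, hc, hd, -, h3, h4⟩ := gadE_ends hf
  simp only at hjj
  unfold Sep
  rw [h1, h2, h3, h4]; simp only [vtx]; omega

/-- the colouring is proper -/
theorem drawE_proper (S : List (Bool × Tri)) (hS : ∀ s ∈ S, Tri.Dist s.2) :
    (drawE S).Pairwise Prop2 := by
  unfold drawE
  refine pairwise_flatMap_of (zipIdx_pairwise _ 0) ?_ ?_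
  · rintro ⟨s, j⟩ hm
    rw [List.mem_zipIdx_iff_getElem?] at hm
    exact gadE_prop _ (hS s (List.mem_of_getElem? hm)) _
  · rintro ⟨s, j⟩ - ⟨s', j'⟩ - hjj e he f hf v hv hv'
    obtain ⟨a, b, ha, hb, -, h1, h2⟩ := gadE_ends he
    obtain ⟨c, d, hc, hd, -, h3, h4⟩ := gadE_ends hf
    simp only at hjj
    simp only [EndOf, h1, h2, h3, h4, vtx] at hv hv'
    omega

/-- the coloured graph of a list of source gates -/
def faithE (L : List SGate) : List CEdge :=
  drawE (signed (stageBPos (stageA L)) (stageBNeg (stageA L)))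

/-- its number of vertices -/
def faithN (L : List SGate) : ℕ :=
  8 * (signed (stageBPos (stageA L)) (stageBNeg (stageA L))).length

theorem faithE_ends (L : List SGate) : ∀ e ∈ faithE L,
    e.1 < faithN L ∧ e.2.1 < faithN L ∧ e.1 ≠ e.2.1 := drawE_ends _

theorem faithE_sep (L : List SGate) : (faithE L).Pairwise Sep := drawE_sep _

theorem faithE_proper (L : List SGate) : (faithE L).Pairwise Prop2 := by
  apply drawE_proper
  intro s hs
  rcases List.mem_append.mp hs with hs | hs
  · obtain ⟨t, ht, rfl⟩ := List.mem_map.mp hs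
    exact stageBPos_dist _ t ht
  · obtain ⟨t, ht, rfl⟩ := List.mem_map.mp hs
    exact stageBNeg_dist _ t ht

theorem faithE_regular (L : List SGate) (v : ℕ) (hv : v < faithN L) :
    (faithE L).countP (fun e => EndOf v e) = 4 := drawE_regular _ v hv

/-- **Correctness of the reduction.** -/
theorem faith_correct (L : List SGate) :
    (∃ x : ℕ → ℝ, ∀ g ∈ L, g.Holds x) ↔ ∃ d, FDraw (faithE L) d := by
  constructor
  · rintro ⟨x, hx⟩
    obtain ⟨p, h0, h1, h2⟩ := stageAB_complete hx
    apply draw_complete h0
    · intro t ht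
      apply h1 t
      simpa [signed] using ht
    · intro t ht
      apply h2 t
      simpa [signed] using ht
  · rintro ⟨d, hd⟩
    obtain ⟨q, h0, h1, h2⟩ := draw_sound hd
    exact stageAB_sound h0 (fun t ht => h1 t (by simp [signed, ht]))
      (fun t ht => h2 t (by simp [signed, ht]))

end Pool.Agent.Work.MP_8aa36a_lc
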