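import Pool.Agent.Work.PolyTime.Pairs
import Pool.Agent.Work.MP_8aa36a_lc.Valid

/-!
Faithful drawability of 4-regular edge-coloured graphs: inputs, validity, membership in the
existential theory of the reals.
-/

set_option autoImplicit false
set_option linter.unusedSimpArgs false

namespace Pool.Agent.Work.MP_8aa36a_lc

open Pool.Agent.Work.PolyTime
open Pool.Agent.Work.MP_8c8e41_lc

/-- Edge-coloured graphs as lists of triples: `(u, v, c)` is the edge `uv` of colour `c`. -/
abbrev GInput : Type := List (Name × Name × Name)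

/-- `v` is an endpoint of `e`. -/
def IsEnd (v : Name) (e : Name × Name × Name) : Prop := e.1 = v ∨ e.2.1 = v

/-- Boolean version. -/
def isEndB (v : Name) (e : Name × Name × Name) : Bool := decide (e.1 = v) || decide (e.2.1 = v)

theorem isEndB_iff {v : Name} {e : Name × Name × Name} : isEndB v e = true ↔ IsEnd v e := by
  simp [isEndB, IsEnd]

/-- The same edge. -/
def SameEdge (e f : Name × Name × Name) : Prop :=
  (e.1 = f.1 ∧ e.2.1 = f.2.1) ∨ (e.1 = f.2.1 ∧ e.2.1 = f.1)

/-- Simple graphs, properly edge-coloured, 4-regular. -/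
def GValid (E : GInput) : Prop :=
  (∀ e ∈ E, e.1 ≠ e.2.1) ∧
  E.Pairwise (fun e f => ¬ SameEdge e f) ∧
  E.Pairwise (fun e f => ∀ v, IsEnd v e → IsEnd v f → e.2.2 ≠ f.2.2) ∧
  (∀ e ∈ E, ∀ v, IsEnd v e → E.countP (isEndB v) = 4)

/-- Faithful drawings. -/
def Faithful (E : GInput) (p : Name → ℝ × ℝ) : Prop :=
  (∀ e ∈ E, ∀ f ∈ E, ∀ u v, IsEnd u e → IsEnd v f → u ≠ v → p u ≠ p v) ∧
  (∀ c, ∃ q : ℝ × ℝ, ∀ e ∈ E, e.2.2 = c → q ∈ line[ℝ, p e.1, p e.2.1]) ∧
  (∀ e ∈ E, ∀ f ∈ E, e ≠ f → line[ℝ, p e.1, p e.2.1] ≠ line[ℝ, p f.1, p f.2.1])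

def GYes (E : GInput) : Prop := ∃ p : Name → ℝ × ℝ, Faithful E p

theorem det3_lift (a b c : ℝ × ℝ) : det3 (lift a) (lift b) (lift c) = det2 a b c := by
  simp only [det3, lift, det2]; ring

theorem mem_line_iff {a b q : ℝ × ℝ} (hab : a ≠ b) : q ∈ line[ℝ, a, b] ↔ det2 a b q = 0 := by
  rw [← det3_lift]
  exact ⟨det_of_mem_line, mem_line_of_det hab⟩

theorem line_eq_iff {a b c d : ℝ × ℝ} (hab : a ≠ b) (hcd : c ≠ d) :
    line[ℝ, a, b] = line[ℝ, c, d] ↔ det2 a b c = 0 ∧ det2 a b d = 0 := by
  rw [← mem_line_iff hab, ← mem_line_iff hab]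
  constructor
  · intro h
    rw [h]
    exact ⟨left_mem_affineSpan_pair ℝ c d, right_mem_affineSpan_pair ℝ c d⟩
  · rintro ⟨hc, hd⟩
    have h := collinear_insert_insert_of_mem_affineSpan_pair hc hd
    rw [h.affineSpan_eq_of_ne (p₁ := a) (p₂ := b) (by simp) (by simp) hab,
      h.affineSpan_eq_of_ne (p₁ := c) (p₂ := d) (by simp) (by simp) hcd]

/-! ### The formula -/

/-- Names of the points of vertices and colours. -/
def vp (u : Name) : Name := false :: u
def cp (c : Name) : Name := true :: c

def verts (E : GInput) : List Name := E.flatMap fun e => [e.1, e.2.1]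

theorem mem_verts {E : GInput} {v : Name} : v ∈ verts E ↔ ∃ e ∈ E, IsEnd v e := by
  simp only [verts, List.mem_flatMap, List.mem_cons, List.not_mem_nil, or_false, IsEnd]
  constructor
  · rintro ⟨e, he, h⟩
    exact ⟨e, he, h.imp Eq.symm Eq.symm⟩
  · rintro ⟨e, he, h⟩
    exact ⟨e, he, h.imp Eq.symm Eq.symm⟩

def distF (E : GInput) : List Formula :=
  (verts E).flatMap fun u => (verts E).flatMap fun v => bif decide (u = v) then [] else
    [.not (.and (.eq (xc (vp u)) (xc (vp v))) (.eq (yc (vp u)) (yc (vp v))))]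

def concF (E : GInput) : List Formula :=
  E.map fun e => colF (vp e.1) (vp e.2.1) (cp e.2.2)

def lineF (E : GInput) : List Formula :=
  E.flatMap fun e => E.flatMap fun f => bif decide (e = f) then [] else
    [.not (.and (colF (vp e.1) (vp e.2.1) (vp f.1)) (colF (vp e.1) (vp e.2.1) (vp f.2.1)))]

def gF (E : GInput) : Formula := conj (distF E ++ (concF E ++ lineF E))

/-- The point assignment of vertices and colours. -/
def both (p q : Name → ℝ × ℝ) : Name → ℝ × ℝ
  | [] => 0
  | false :: u => p u
  | true :: c => q c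

theorem gF_holds (x : Name → ℝ) (E : GInput) : (gF E).Holds x ↔
    (∀ u ∈ verts E, ∀ v ∈ verts E, u ≠ v → ptOf x (vp u) ≠ ptOf x (vp v)) ∧
    (∀ e ∈ E, det2 (ptOf x (vp e.1)) (ptOf x (vp e.2.1)) (ptOf x (cp e.2.2)) = 0) ∧
    (∀ e ∈ E, ∀ f ∈ E, e ≠ f →
      ¬ (det2 (ptOf x (vp e.1)) (ptOf x (vp e.2.1)) (ptOf x (vp f.1)) = 0 ∧
        det2 (ptOf x (vp e.1)) (ptOf x (vp e.2.1)) (ptOf x (vp f.2.1)) = 0)) := by
  rw [gF, conj_holds]
  simp only [List.mem_append, or_imp, forall_and]
  refine and_congr ?_ (and_congr ?_ ?_)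
  · simp only [distF, List.mem_flatMap]
    constructor
    · intro h u hu v hv huv he
      have h1 := h _ ⟨u, hu, v, hv, by
        have : decide (u = v) = false := by simpa using huv
        rw [this, cond_false]; exact List.mem_singleton.2 rfl⟩
      simp only [Formula.Holds] at h1
      exact h1 ⟨congrArg Prod.fst he, congrArg Prod.snd he⟩
    · rintro h φ ⟨u, hu, v, hv, hφ⟩
      by_cases huv : u = v
      · simp [huv] at hφ
      · have : decide (u = v) = false := by simpa using huv
        rw [this, cond_false, List.mem_singleton] at hφ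
        subst hφ
        simp only [Formula.Holds]
        rintro ⟨h1, h2⟩
        exact h u hu v hv huv (Prod.ext h1 h2)
  · simp only [concF, List.mem_map, forall_exists_index, and_imp, forall_apply_eq_imp_iff₂,
      colF_holds]
  · simp only [lineF, List.mem_flatMap]
    constructor
    · intro h u hu v hv huv he
      have h1 := h _ ⟨u, hu, v, hv, by
        have : decide (u = v) = false := by simpa using huv
        rw [this, cond_false]; exact List.mem_singleton.2 rfl⟩
      simp only [Formula.Holds, colF_holds] at h1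
      exact h1 he
    · rintro h φ ⟨u, hu, v, hv, hφ⟩
      by_cases huv : u = v
      · simp [huv] at hφ
      · have : decide (u = v) = false := by simpa using huv
        rw [this, cond_false, List.mem_singleton] at hφ
        subst hφ
        simp only [Formula.Holds, colF_holds]
        exact h u hu v hv huv

theorem gF_correct {E : GInput} (hl : ∀ e ∈ E, e.1 ≠ e.2.1) :
    GYes E ↔ ∃ x : Name → ℝ, (gF E).Holds x := by
  constructor
  · rintro ⟨p, h1, h2, h3⟩
    choose q hq using h2
    have hne : ∀ e ∈ E, p e.1 ≠ p e.2.1 := fun e he =>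
      h1 e he e he _ _ (Or.inl rfl) (Or.inr rfl) (hl e he)
    refine ⟨numOf (both p q), (gF_holds _ _).2 ?_⟩
    rw [ptOf_numOf]
    refine ⟨?_, ?_, ?_⟩
    · intro u hu v hv huv
      obtain ⟨e, he, hue⟩ := mem_verts.1 hu
      obtain ⟨f, hf, hvf⟩ := mem_verts.1 hv
      exact h1 e he f hf u v hue hvf huv
    · intro e he
      exact (mem_line_iff (hne e he)).1 (hq e.2.2 e he rfl)
    · intro e he f hf hef
      have := h3 e he f hf hef
      rwa [Ne, line_eq_iff (hne e he) (hne f hf)] at this
  · rintro ⟨x, hx⟩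
    obtain ⟨h1, h2, h3⟩ := (gF_holds _ _).1 hx
    have hne : ∀ e ∈ E, ptOf x (vp e.1) ≠ ptOf x (vp e.2.1) := fun e he =>
      h1 _ (mem_verts.2 ⟨e, he, Or.inl rfl⟩) _ (mem_verts.2 ⟨e, he, Or.inr rfl⟩) (hl e he)
    refine ⟨fun u => ptOf x (vp u), ?_, ?_, ?_⟩
    · intro e he f hf u v hu hv huv
      exact h1 u (mem_verts.2 ⟨e, he, hu⟩) v (mem_verts.2 ⟨f, hf, hv⟩) huv
    · intro c
      refine ⟨ptOf x (cp c), ?_⟩
      rintro e he rfl
      exact (mem_line_iff (hne e he)).2 (h2 e he)
    · intro e he f hf hef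
      rw [Ne, line_eq_iff (hne e he) (hne f hf)]
      exact h3 e he f hf hef

theorem verts_ptime : PTime verts := by
  unfold verts
  exact PTime.flatMap (by fun_prop) (by fun_prop)

theorem gF_ptime : PTime gF := by
  unfold gF
  refine PTime.conj (PTime.append ?_ (PTime.append ?_ ?_))
  · unfold distF
    have h1 : PTime (fun y : GInput × Name => verts y.1) := verts_ptime.comp PTime.fst
    refine PTime.flatMap verts_ptime (PTime.flatMap h1 ?_)
    unfold xc yc vp
    fun_prop
  · unfold concF
    refine PTime.map (by fun_prop) ?_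
    unfold vp cp
    fun_prop
  · unfold lineF
    refine PTime.flatMap (by fun_prop) (PTime.flatMap (by fun_prop) ?_)
    unfold vp
    fun_prop

/-! ### Validity -/

/-- Boolean version of validity. -/
def gValidB (E : GInput) : Bool :=
  (E.all fun e => !decide (e.1 = e.2.1)) &&
  (pairwiseB (fun e f => !((decide (e.1 = f.1) && decide (e.2.1 = f.2.1)) ||
    (decide (e.1 = f.2.1) && decide (e.2.1 = f.1)))) E &&
  (pairwiseB (fun e f => (!decide (e.2.2 = f.2.2)) ||
    (!((isEndB e.1 f) || (isEndB e.2.1 f)))) E &&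
  (E.all fun e => decide ((E.filter (isEndB e.1)).length = 4) &&
    decide ((E.filter (isEndB e.2.1)).length = 4))))

theorem gValidB_iff (E : GInput) : gValidB E = true ↔ GValid E := by
  simp only [gValidB, Bool.and_eq_true, GValid]
  refine and_congr ?_ (and_congr ?_ (and_congr ?_ ?_))
  · simp
  · refine pairwiseB_iff ?_
    intro e f
    simp only [Bool.not_eq_true', Bool.or_eq_false_iff, Bool.and_eq_false_iff,
      decide_eq_false_iff_not, SameEdge]
    tauto
  · refine pairwiseB_iff ?_
    intro e f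
    have hb : ∀ b : Bool, (!b) = true ↔ ¬ (b = true) := by intro b; cases b <;> simp
    simp only [Bool.or_eq_true, hb, decide_eq_true_eq, isEndB_iff, not_or]
    constructor
    · rintro (h | ⟨h1, h2⟩) v hv hv'
      · exact h
      · rcases hv with rfl | rfl
        · exact absurd hv' h1
        · exact absurd hv' h2
    · intro h
      by_cases hc : e.2.2 = f.2.2
      · exact Or.inr ⟨fun h' => h _ (Or.inl rfl) h' hc, fun h' => h _ (Or.inr rfl) h' hc⟩
      · exact Or.inl hc
  · simp only [List.all_eq_true, Bool.and_eq_true, decide_eq_true_eq, List.countP_eq_length_filter]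
    constructor
    · rintro h e he v (rfl | rfl)
      · exact (h e he).1
      · exact (h e he).2
    · intro h e he
      exact ⟨h e he _ (Or.inl rfl), h e he _ (Or.inr rfl)⟩

@[fun_prop]
theorem isEndB_ptime {α : Type} [Code α] {v : α → Name} {e : α → Name × Name × Name}
    (hv : PTime v) (he : PTime e) : PTime (fun x => isEndB (v x) (e x)) := by
  unfold isEndB; fun_prop

theorem gValidB_ptime : PTime gValidB := by
  unfold gValidB
  refine PTime.and (PTime.all (by fun_prop) (by fun_prop)) (PTime.and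
    (PTime.pairwiseB (by fun_prop) (by fun_prop)) (PTime.and
    (PTime.pairwiseB (by fun_prop) (by fun_prop)) (PTime.all (by fun_prop) ?_)))
  refine PTime.and ?_ ?_
  · have h : PTime (fun y : GInput × (Name × Name × Name) =>
        (y.1.filter (isEndB y.2.1)).length) :=
      PTime.length (PTime.filter (l := fun y : GInput × (Name × Name × Name) => y.1)
        (p := fun y e => isEndB y.2.1 e) (by fun_prop) (by fun_prop))
    fun_prop
  · have h : PTime (fun y : GInput × (Name × Name × Name) =>
        (y.1.filter (isEndB y.2.2.1)).length) :=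
      PTime.length (PTime.filter (l := fun y : GInput × (Name × Name × Name) => y.1)
        (p := fun y e => isEndB y.2.2.1 e) (by fun_prop) (by fun_prop))
    fun_prop

end Pool.Agent.Work.MP_8aa36a_lc
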