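import Pool.Agent.Work.MP_8aa36a_lc.Lang
import Pool.Agent.Work.MP_8c8e41_lc.Main

/-!
Faithful drawability of properly edge-coloured 4-regular graphs is complete for the existential
theory of the reals.
-/

set_option autoImplicit false
set_option linter.unusedSimpArgs false

namespace Pool.Agent.Work.MP_8aa36a_lc

open Pool.Agent.Work.PolyTime
open Pool.Agent.Work.MP_8c8e41_lc

/-- Edge with names written in unary. -/
def nmE (e : CEdge) : Name × Name × Name := (nm e.1, nm e.2.1, nm e.2.2)

/-- Graph with names written in unary. -/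
def toG (E : List CEdge) : GInput := E.map nmE

theorem nmE_inj : Function.Injective nmE := by
  rintro ⟨a, b, c⟩ ⟨a', b', c'⟩ h
  simp only [nmE, Prod.mk.injEq, nm_inj.eq_iff] at h
  simp only [Prod.mk.injEq]
  exact h

theorem isEnd_nmE {v : ℕ} {e : CEdge} : IsEnd (nm v) (nmE e) ↔ EndOf v e := by
  simp [IsEnd, nmE, EndOf, nm_inj.eq_iff]

theorem isEnd_nmE' {v : Name} {e : CEdge} (h : IsEnd v (nmE e)) : v = nm v.length := by
  rcases h with h | h <;> rw [← h] <;> simp [nmE, nm_length]

theorem toG_yes (E : List CEdge) : GYes (toG E) ↔ ∃ d, FDraw E d := by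
  constructor
  · rintro ⟨p, h1, h2, h3⟩
    refine ⟨fun n => p (nm n), ?_, ?_, ?_⟩
    · intro e he f hf u v hu hv huv
      by_contra hne
      refine h1 (nmE e) (List.mem_map_of_mem he) (nmE f) (List.mem_map_of_mem hf) (nm u) (nm v)
        (isEnd_nmE.2 ?_) (isEnd_nmE.2 ?_) (fun h => hne (nm_inj h)) huv
      · exact hu.imp Eq.symm Eq.symm
      · exact hv.imp Eq.symm Eq.symm
    · intro c
      obtain ⟨q, hq⟩ := h2 (nm c)
      refine ⟨q, fun e he hc => ?_⟩
      exact hq (nmE e) (List.mem_map_of_mem he) (by rw [← hc]; rfl)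
    · intro e he f hf hef
      exact h3 (nmE e) (List.mem_map_of_mem he) (nmE f) (List.mem_map_of_mem hf)
        (fun h => hef (nmE_inj h))
  · rintro ⟨d, h1, h2, h3⟩
    refine ⟨fun a => d a.length, ?_, ?_, ?_⟩
    · intro e' he' f' hf' u v hu hv huv
      obtain ⟨e, he, rfl⟩ := List.mem_map.1 he'
      obtain ⟨f, hf, rfl⟩ := List.mem_map.1 hf'
      have eu : u = nm u.length := isEnd_nmE' hu
      have ev : v = nm v.length := isEnd_nmE' hv
      rw [eu, isEnd_nmE] at hu
      rw [ev, isEnd_nmE] at hv
      intro h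
      apply huv
      have h4 := h1 e he f hf u.length v.length (hu.imp Eq.symm Eq.symm)
        (hv.imp Eq.symm Eq.symm) h
      rw [eu, ev, h4]
    · intro c
      obtain ⟨q, hq⟩ := h2 c.length
      refine ⟨q, ?_⟩
      intro e' he' hc
      obtain ⟨e, he, rfl⟩ := List.mem_map.1 he'
      have h4 := hq e he (by rw [← hc]; simp [nmE, nm_length])
      simpa only [nmE, nm_length] using h4
    · intro e' he' f' hf' hef
      obtain ⟨e, he, rfl⟩ := List.mem_map.1 he'
      obtain ⟨f, hf, rfl⟩ := List.mem_map.1 hf'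
      have h4 := h3 e he f hf (fun h => hef (by rw [h]))
      simpa only [nmE, nm_length] using h4

theorem toG_valid {E : List CEdge} (h1 : ∀ e ∈ E, e.1 ≠ e.2.1) (h2 : E.Pairwise Sep)
    (h3 : E.Pairwise Prop2) (h4 : ∀ e ∈ E, ∀ v, EndOf v e → E.countP (fun e => EndOf v e) = 4) :
    GValid (toG E) := by
  refine ⟨?_, ?_, ?_, ?_⟩
  · intro e' he'
    obtain ⟨e, he, rfl⟩ := List.mem_map.1 he'
    exact fun h => h1 e he (nm_inj h)
  · rw [toG, List.pairwise_map]
    refine h2.imp ?_
    intro e f h
    simpa only [SameEdge, nmE, nm_inj.eq_iff, Sep] using h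
  · rw [toG, List.pairwise_map]
    refine h3.imp ?_
    intro e f h v hv hv'
    have ev : v = nm v.length := isEnd_nmE' hv
    rw [ev, isEnd_nmE] at hv hv'
    exact fun hc => h _ hv hv' (nm_inj hc)
  · intro e' he' v hv
    obtain ⟨e, he, rfl⟩ := List.mem_map.1 he'
    have hv' : v = nm v.length := isEnd_nmE' hv
    rw [hv', isEnd_nmE] at hv
    rw [toG, List.countP_map, ← h4 e he v.length hv]
    congr 1
    funext f
    rw [Bool.eq_iff_iff, Function.comp_apply, isEndB_iff, decide_eq_true_eq, hv', isEnd_nmE,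
      nm_length]

theorem gadE_ptime {α : Type} [Code α] {s : α → Bool} {t : α → Tri} {j : α → ℕ} (hs : PTime s)
    (ht : PTime t) (hj : PTime j) : PTime (fun x => gadE (s x) (t x) (j x)) := by
  refine PTime.branchBool hs ?_ ?_
  · have h : PTime (fun x => gadE false (t x) (j x)) := by
      simp only [gadE, Bool.false_eq_true, if_false]
      unfold vtx oldv colr
      fun_prop
    refine (h.comp (PTime.id (α := {a // s a = false})).val).code_congr (fun a => ?_)
    rw [a.2]
  · have h : PTime (fun x => gadE true (t x) (j x)) := by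
      simp only [gadE, if_true]
      unfold vtx oldv colr
      fun_prop
    refine (h.comp (PTime.id (α := {a // s a = true})).val).code_congr (fun a => ?_)
    rw [a.2]

theorem faithE_ptime : PTime faithE := by
  unfold faithE drawE signed
  have h1 : PTime (fun L : List SGate => stageBPos (stageA L)) := stageBPos_ptime stageA_ptime
  have h2 : PTime (fun L : List SGate => stageBNeg (stageA L)) := stageBNeg_ptime stageA_ptime
  exact PTime.flatMap (PTime.zipIdx (PTime.append (PTime.map h1 (by fun_prop))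
    (PTime.map h2 (by fun_prop)))) (gadE_ptime (by fun_prop) (by fun_prop) (by fun_prop))

theorem nmE_ptime {α : Type} [Code α] {e : α → CEdge} (he : PTime e) :
    PTime (fun x => nmE (e x)) := by
  unfold nmE; fun_prop

/-- The graph produced from a list of gates. -/
def mkG (L : List (ℕ × ℕ × ℕ × ℕ)) : GInput := toG (faithE L)

theorem mkG_ptime : PTime mkG := by
  unfold mkG toG
  exact PTime.map (f := fun _ e => nmE e) faithE_ptime (nmE_ptime (by fun_prop))

theorem mkG_valid (L : List (ℕ × ℕ × ℕ × ℕ)) : GValid (mkG L) := by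
  refine toG_valid (fun e he => (faithE_ends L e he).2.2) (faithE_sep L) (faithE_proper L) ?_
  rintro e he v (rfl | rfl)
  · exact faithE_regular L _ (faithE_ends L e he).1
  · exact faithE_regular L _ (faithE_ends L e he).2.1

theorem mkG_yes (L : List (ℕ × ℕ × ℕ × ℕ)) :
    (∃ x : ℕ → ℝ, ∀ g ∈ L, NHolds x g) ↔ GYes (mkG L) := by
  have h0 : (∃ x : ℕ → ℝ, ∀ g ∈ L, NHolds x g) ↔ (∃ x : ℕ → ℝ, ∀ g ∈ L, SGate.Holds x g) :=
    Iff.rfl
  rw [h0, faith_correct, mkG, toG_yes]

/-- Completeness of faithful drawability of 4-regular graphs. -/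
theorem faith_complete : ExistsRComplete (problem GValid GYes) :=
  existsRComplete_of
    (reducible_to_etr gValidB_iff gValidB_ptime gF_ptime (fun _ h => gF_correct h.1))
    (etr_reducible_to mkG_ptime mkG_valid mkG_yes)

end Pool.Agent.Work.MP_8aa36a_lc
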