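import Pool.Agent.Work.MP_8aa36a_lc.Main
import Pool.Agent.Work.MP_8aa36a_lc.Four.Reduction
import Pool.Agent.Work.PolyTime.More

/-!
Faithful drawability of properly edge-coloured 4-regular graphs with a bounded number of colours
(at least four) is complete for the existential theory of the reals.
-/

set_option autoImplicit false
set_option linter.unusedSimpArgs false

namespace Pool.Agent.Work.MP_8aa36a_lc

open Pool.Agent.Work.PolyTime
open Pool.Agent.Work.MP_8c8e41_lc

section

variable {α : Type} [Code α]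

theorem nc_ptime {c : α → ℕ} (hc : PTime c) : PTime (fun x => nc (c x)) := by
  have h : PTime (fun x => bif decide (c x = 0) then 1 else bif decide (c x = 1) then 2 else 0) := by
    fun_prop
  exact h.code_congr fun x => by simp only [nc, Bool.cond_decide]

theorem lam_ptime {c : α → ℕ} (hc : PTime c) : PTime (fun x => lam (c x)) := by
  have h : PTime (fun x => bif decide (c x = 0) then 6 else 3 * c x) := by
    fun_prop
  exact h.code_congr fun x => by simp only [lam, Bool.cond_decide]

theorem lam'_ptime {c : α → ℕ} (hc : PTime c) : PTime (fun x => lam' (c x)) := by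
  have h : PTime (fun x => bif decide (c x = 0) then 43 else 3 * c x + 1) := by
    fun_prop
  exact h.code_congr fun x => by simp only [lam', Bool.cond_decide]

theorem cv_ptime {N i r : α → ℕ} (hN : PTime N) (hi : PTime i) (hr : PTime r) :
    PTime (fun x => cv (N x) (i x) (r x)) := by
  unfold cv; fun_prop

theorem cplE_ptime {N i : α → ℕ} {C : α → Cpl} (hN : PTime N) (hC : PTime C) (hi : PTime i) :
    PTime (fun x => cplE (N x) (C x) (i x)) := by
  unfold cplE
  have h1 : PTime (fun x => nc (C x).1) := nc_ptime (by fun_prop)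
  have h2 : PTime (fun x => nc (nc (C x).1)) := nc_ptime h1
  have hc : ∀ r : ℕ, PTime (fun x => cv (N x) (i x) r) := fun r => cv_ptime hN hi (PTime.const r)
  have e : ∀ {f g h : α → ℕ} {l : α → List CEdge}, PTime f → PTime g → PTime h → PTime l →
      PTime (fun x => (f x, g x, h x) :: l x) := by
    intro f g h l hf hg hh hl; fun_prop
  have a1 : PTime (fun x => 2 * (C x).2.1) := by fun_prop
  have a2 : PTime (fun x => 2 * (C x).2.1 + 1) := by fun_prop
  have a3 : PTime (fun x => 2 * (C x).2.2) := by fun_prop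
  have a4 : PTime (fun x => 2 * (C x).2.2 + 1) := by fun_prop
  have c1 : PTime (fun x => (C x).1) := by fun_prop
  have c3 : PTime (fun _ : α => 3) := PTime.const 3
  exact e a1 (hc 0) c1 (e a2 (hc 6) c1 (e a3 (hc 3) c1 (e a4 (hc 9) c1 (e (hc 0) (hc 1) h2
    (e (hc 1) (hc 2) c1 (e (hc 0) (hc 2) h1 (e (hc 3) (hc 4) h2 (e (hc 4) (hc 5) c1
    (e (hc 3) (hc 5) h1 (e (hc 6) (hc 7) h2 (e (hc 7) (hc 8) c1 (e (hc 6) (hc 8) h1
    (e (hc 9) (hc 10) h2 (e (hc 10) (hc 11) c1 (e (hc 9) (hc 11) h1 (e (hc 1) (hc 4) h1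
    (e (hc 7) (hc 10) h1 (e (hc 2) (hc 5) h2 (e (hc 8) (hc 11) h2 (e (hc 0) (hc 6) c3
    (e (hc 1) (hc 7) c3 (e (hc 2) (hc 8) c3 (e (hc 3) (hc 9) c3 (e (hc 4) (hc 10) c3
    (e (hc 5) (hc 11) c3 (PTime.const []))))))))))))))))))))))))))

theorem netE_ptime {N : α → ℕ} {R : α → List (ℕ × ℕ)} {L : α → List Cpl} (hN : PTime N)
    (hR : PTime R) (hL : PTime L) : PTime (fun x => netE (N x) (R x) (L x)) := by
  unfold netE
  refine PTime.append (PTime.const _) (PTime.append (PTime.map
    (f := fun _ (ab : ℕ × ℕ) => (ab.1, ab.2, 3)) hR (by fun_prop)) ?_)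
  exact PTime.flatMap (f := fun x (Ci : Cpl × ℕ) => cplE (N x) Ci.1 Ci.2) (PTime.zipIdx hL)
    (cplE_ptime (hN.comp PTime.fst) (by fun_prop) (by fun_prop))

theorem gR_ptime {K : α → ℕ} (hK : PTime K) : PTime (fun x => gR (K x)) := by
  unfold gR
  refine PTime.flatMap (f := fun _ k => tR.map fun ab => (ab.1 + 72 * k, ab.2 + 72 * k))
    (PTime.range hK) ?_
  exact PTime.map (f := fun (y : α × ℕ) (ab : ℕ × ℕ) => (ab.1 + 72 * y.2, ab.2 + 72 * y.2))
    (PTime.const _) (by fun_prop)

theorem gLint_ptime {K : α → ℕ} (hK : PTime K) : PTime (fun x => gLint (K x)) := by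
  unfold gLint
  refine PTime.flatMap (f := fun _ k => tL.map fun C => (C.1, C.2.1 + 36 * k, C.2.2 + 36 * k))
    (PTime.range hK) ?_
  exact PTime.map (f := fun (y : α × ℕ) (C : Cpl) => (C.1, C.2.1 + 36 * y.2, C.2.2 + 36 * y.2))
    (PTime.const _) (by fun_prop)

theorem ring_ptime {bs : α → List ℕ} (hb : PTime bs) : PTime (fun x => ring (bs x)) := by
  unfold ring
  refine PTime.map (f := fun _ (p : ℕ × ℕ) => (1, p.1 + 2, p.2)) (PTime.zip hb
    (PTime.append (PTime.tail hb) (PTime.take hb (PTime.const 1)))) (by fun_prop)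

theorem gLring_ptime {us : α → List (ℕ × ℕ)} {B : α → ℕ} (hu : PTime us) (hB : PTime B) :
    PTime (fun x => gLring (us x) (B x)) := by
  unfold gLring
  refine PTime.flatMap (f := fun x v => ring (((us x).filter fun y => y.1 = v).map fun y => y.2))
    (PTime.range hB) (ring_ptime ?_)
  refine PTime.map (f := fun (_ : α × ℕ) (y : ℕ × ℕ) => y.2) ?_ (by fun_prop)
  refine PTime.filter (p := fun (z : α × ℕ) (y : ℕ × ℕ) => decide (y.1 = z.2))
    (hu.comp PTime.fst) ?_
  exact PTime.eq (by fun_prop) (by fun_prop)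

theorem gUs_ptime {gs : α → List (List ℕ)} (hg : PTime gs) : PTime (fun x => gUs (gs x)) := by
  unfold gUs
  refine PTime.flatMap (f := fun _ (gk : List ℕ × ℕ) =>
    gk.1.zipIdx.map fun ne => (ne.1, 11 + 36 * gk.2 + 3 * ne.2)) (PTime.zipIdx hg) ?_
  exact PTime.map (f := fun (y : α × (List ℕ × ℕ)) (ne : ℕ × ℕ) =>
    (ne.1, 11 + 36 * y.2.2 + 3 * ne.2)) (PTime.zipIdx (by fun_prop)) (by fun_prop)

theorem gateE_ptime {gs : α → List (List ℕ)} {B : α → ℕ} (hg : PTime gs) (hB : PTime B) :
    PTime (fun x => gateE (gs x) (B x)) := by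
  unfold gateE
  have hK : PTime (fun x => (gs x).length) := PTime.length hg
  refine netE_ptime ?_ (gR_ptime hK) ?_
  · unfold gN; fun_prop
  · unfold gL
    exact PTime.cons (PTime.const _) (PTime.append (gLint_ptime hK)
      (gLring_ptime (gUs_ptime hg) hB))

theorem gname_ptime {t : α → Tri} {k : α → ℕ} (ht : PTime t) (hk : PTime k) :
    PTime (fun x => gname (t x) (k x)) := by
  unfold gname
  have h1 := lam_ptime (c := fun x => (t x).1) (by fun_prop)
  have h2 := lam_ptime (c := fun x => (t x).2.1) (by fun_prop)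
  have h3 := lam_ptime (c := fun x => (t x).2.2) (by fun_prop)
  have h4 := lam'_ptime (c := fun x => (t x).1) (by fun_prop)
  have h5 := lam'_ptime (c := fun x => (t x).2.1) (by fun_prop)
  have h6 := lam'_ptime (c := fun x => (t x).2.2) (by fun_prop)
  fun_prop

theorem fourGs_ptime {P : α → List Tri} (hP : PTime P) : PTime (fun x => fourGs (P x)) := by
  unfold fourGs gateNames gates3 triP ptT
  have h1 : PTime (fun x => (P x).map (fun t : Tri => ((2 * t.1 + 2, 2 * t.2.1 + 2,
      2 * t.2.2 + 2) : Tri)) ++ [(4, 8, 0)]) :=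
    PTime.append (PTime.map (f := fun _ (t : Tri) => ((2 * t.1 + 2, 2 * t.2.1 + 2,
      2 * t.2.2 + 2) : Tri)) hP (by fun_prop)) (PTime.const _)
  refine PTime.map (f := fun _ (gk : Tri × ℕ) => gname gk.1 gk.2) (PTime.zipIdx ?_)
    (gname_ptime (by fun_prop) (by fun_prop))
  exact PTime.flatMap (f := fun _ (tj : Tri × ℕ) => [(tj.1.1, tj.1.2.1, 2 * tj.2 + 1),
    (tj.1.1, tj.1.2.2, 2 * tj.2 + 1), (tj.1.2.1, tj.1.2.2, 2 * tj.2 + 1)])
    (PTime.zipIdx h1) (by fun_prop)

theorem fourB_ptime {gs : α → List (List ℕ)} (hg : PTime gs) :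
    PTime (fun x => fourB (gs x)) := by
  unfold fourB
  exact PTime.succ (PTime.listSum (PTime.flatMap (f := fun _ x => x) hg (by fun_prop)))

end

theorem fourE_ptime : PTime fourE := by
  unfold fourE fourG
  have h1 : PTime (fun L : List SGate => stageBPos (stageA L)) := stageBPos_ptime stageA_ptime
  have h2 := fourGs_ptime h1
  exact gateE_ptime h2 (fourB_ptime h2)

/-- The graph produced from a list of gates. -/
def mkG4 (L : List (ℕ × ℕ × ℕ × ℕ)) : GInput := toG (fourE L)

theorem mkG4_ptime : PTime mkG4 := by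
  unfold mkG4 toG
  exact PTime.map (f := fun _ e => nmE e) fourE_ptime (nmE_ptime (by fun_prop))

theorem mkG4_valid (L : List (ℕ × ℕ × ℕ × ℕ)) : GValid (mkG4 L) := by
  refine toG_valid (fun e he => (four_ends L e he).2.2) (four_sep L) (four_proper L) ?_
  rintro e he v (rfl | rfl)
  · exact four_regular L _ (four_ends L e he).1
  · exact four_regular L _ (four_ends L e he).2.1

theorem mkG4_yes (L : List (ℕ × ℕ × ℕ × ℕ)) :
    (∃ x : ℕ → ℝ, ∀ g ∈ L, NHolds x g) ↔ GYes (mkG4 L) := by
  have h0 : (∃ x : ℕ → ℝ, ∀ g ∈ L, NHolds x g) ↔ (∃ x : ℕ → ℝ, ∀ g ∈ L, SGate.Holds x g) :=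
    Iff.rfl
  rw [h0, four_correct, mkG4, toG_yes]

/-! ### The number of colours -/

/-- The set of colours. -/
def cols (E : GInput) : Set Name := {c | ∃ e ∈ E, e.2.2 = c}

/-- Valid inputs with at most `K` colours. -/
def GValidK (K : ℕ∞) (E : GInput) : Prop := GValid E ∧ (cols E).encard ≤ K

theorem mkG4_validK {K : ℕ∞} (hK : 4 ≤ K) (L : List (ℕ × ℕ × ℕ × ℕ)) : GValidK K (mkG4 L) := by
  refine ⟨mkG4_valid L, le_trans ?_ hK⟩
  have h : cols (mkG4 L) ⊆ ((Finset.range 4).image PolyTime.nm : Finset Name) := by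
    rintro c ⟨e', he', rfl⟩
    obtain ⟨e, he, rfl⟩ := List.mem_map.1 he'
    have := four_col L e he
    simp only [Finset.coe_image, Finset.coe_range, Set.mem_image, Set.mem_Iio]
    exact ⟨e.2.2, this, rfl⟩
  refine (Set.encard_le_encard h).trans ?_
  rw [Set.encard_coe_eq_coe_finsetCard]
  have : ((Finset.range 4).image PolyTime.nm).card ≤ 4 := by
    simpa using Finset.card_image_le (s := Finset.range 4) (f := PolyTime.nm)
  exact_mod_cast this

/-- Removal of repetitions. -/
def dd (l : List Name) : List Name := l.foldl (fun s a => bif memB a s then s else a :: s) []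

theorem dd_aux (l : List Name) : ∀ s : List Name, s.Nodup →
    (l.foldl (fun s a => bif memB a s then s else a :: s) s).Nodup ∧
    ∀ v, v ∈ l.foldl (fun s a => bif memB a s then s else a :: s) s ↔ v ∈ s ∨ v ∈ l := by
  induction l with
  | nil => intro s hs; exact ⟨hs, by simp⟩
  | cons a l ih =>
    intro s hs
    rw [List.foldl_cons]
    have hmB : memB a s = decide (a ∈ s) := by
      rw [Bool.eq_iff_iff, memB_iff, decide_eq_true_eq]
    by_cases h : a ∈ s
    · have e : (bif memB a s then s else a :: s) = s := by simp [h, hmB]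
      rw [e]
      refine ⟨(ih s hs).1, fun v => ?_⟩
      rw [(ih s hs).2]
      simp only [List.mem_cons]
      constructor
      · rintro (h1 | h1)
        · exact Or.inl h1
        · exact Or.inr (Or.inr h1)
      · rintro (h1 | rfl | h1)
        · exact Or.inl h1
        · exact Or.inl h
        · exact Or.inr h1
    · have e : (bif memB a s then s else a :: s) = a :: s := by simp [h, hmB]
      rw [e]
      have hs' : (a :: s).Nodup := List.nodup_cons.2 ⟨h, hs⟩
      refine ⟨(ih _ hs').1, fun v => ?_⟩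
      rw [(ih _ hs').2]
      simp only [List.mem_cons]
      tauto

theorem encard_cols (E : GInput) : (cols E).encard = ((dd (E.map fun e => e.2.2)).length : ℕ∞) := by
  have h1 := dd_aux (E.map fun e => e.2.2) [] List.nodup_nil
  have e : cols E = ((dd (E.map fun e => e.2.2)).toFinset : Set Name) := by
    ext c
    rw [List.coe_toFinset, Set.mem_setOf_eq, dd, h1.2]
    simp [cols]
  have hn : (dd (E.map fun e => e.2.2)).Nodup := h1.1
  rw [e, Set.encard_coe_eq_coe_finsetCard, List.toFinset_card_of_nodup hn]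

/-- Validity, Boolean version. -/
def gValidKB (K : ℕ∞) (E : GInput) : Bool :=
  gValidB E && decide (((dd (E.map fun e => e.2.2)).length : ℕ∞) ≤ K)

theorem gValidKB_iff (K : ℕ∞) (E : GInput) : gValidKB K E = true ↔ GValidK K E := by
  unfold gValidKB GValidK
  rw [Bool.and_eq_true, gValidB_iff, encard_cols, decide_eq_true_eq]

theorem dd_ptime {α : Type} [Code α] {l : α → List Name} (hl : PTime l) :
    PTime (fun x => dd (l x)) := by
  have h : PTime (fun x => (l x).foldl (fun s a =>
      (fun y : α × List Name × Name =>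
        bif memB y.2.2 y.2.1 then y.2.1 else y.2.2 :: y.2.1) (x, s, a)) []) := by
    refine PTime.foldlGrow (f := fun y : α × List Name × Name =>
        bif memB y.2.2 y.2.1 then y.2.1 else y.2.2 :: y.2.1) hl (PTime.const _)
      (PTime.cond (PTime.memB (f := fun y : α × List Name × Name => y.2.2)
        (l := fun y => y.2.1) (by fun_prop) (by fun_prop)) (by fun_prop) (by fun_prop))
      (G := fun x => sz (l x)) hl.sz_le ?_
    intro x a ha s
    have h1 := sz_mem ha
    cases h2 : memB a s
    · simp only [h2, cond_false, sz_cons]; omega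
    · simp [h2]
  exact h

theorem gValidKB_ptime (K : ℕ∞) : PTime (gValidKB K) := by
  unfold gValidKB
  refine PTime.and gValidB_ptime ?_
  cases K using ENat.recTopCoe with
  | top => exact (PTime.const true).code_congr fun E => by simp
  | coe k =>
    have h : PTime (fun E : GInput => decide ((dd (E.map fun e => e.2.2)).length ≤ k)) :=
      PTime.natLe (PTime.length (dd_ptime (PTime.map (f := fun _ (e : Name × Name × Name) =>
        e.2.2) PTime.id (by fun_prop)))) (PTime.const k)
    exact h.code_congr fun E => by simp only [Nat.cast_le]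

/-- Completeness of faithful drawability of 4-regular graphs with at most `K` colours. -/
theorem faith4_complete {K : ℕ∞} (hK : 4 ≤ K) : ExistsRComplete (problem (GValidK K) GYes) :=
  existsRComplete_of
    (reducible_to_etr (gValidKB_iff K) (gValidKB_ptime K) gF_ptime (fun _ h => gF_correct h.1.1))
    (etr_reducible_to mkG4_ptime (mkG4_validK hK) mkG4_yes)

end Pool.Agent.Work.MP_8aa36a_lc
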